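import Mathlib

/-! # Project C3, job AN: quadratic relations between linear forms -/

set_option autoImplicit false

namespace Pool.Agent.V1174.C3.An

open MvPolynomial

noncomputable section

/-- the linear form with coefficients `p` -/
def lin (p : Fin 4 → ℂ) : MvPolynomial (Fin 4) ℂ := ∑ l, C (p l) * X l

theorem eval_lin (p : Fin 4 → ℂ) : eval 0 (lin p) = 0 := by
  simp [lin]

theorem pderiv_lin (p : Fin 4 → ℂ) (l : Fin 4) : pderiv l (lin p) = C (p l) := by
  unfold lin
  rw [map_sum, Finset.sum_eq_single l]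
  · simp [Derivation.leibniz, pderiv_X_self]
  · intro b _ hb
    simp [Derivation.leibniz, pderiv_X_of_ne hb]
  · simp

theorem lin_eq_zero {p : Fin 4 → ℂ} (h : lin p = 0) (l : Fin 4) : p l = 0 := by
  have h1 := pderiv_lin p l
  rw [h, map_zero] at h1
  exact (C_eq_zero.1 h1.symm)

theorem totalDegree_lin (p : Fin 4 → ℂ) : (lin p).totalDegree ≤ 1 := by
  unfold lin
  refine totalDegree_finsetSum_le (fun l _ => ?_)
  refine (totalDegree_mul _ _).trans ?_
  simp

theorem const_of_totalDegree {g : MvPolynomial (Fin 4) ℂ} (h : g.totalDegree = 0) :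
    ∃ c, g = C c := ⟨_, totalDegree_eq_zero_iff_eq_C.1 h⟩

theorem core (p q r : Fin 4 → ℂ) (α β : MvPolynomial (Fin 4) ℂ) (h0 : α ≠ 0 ∨ β ≠ 0)
    (h : α ^ 2 * lin p + 2 * α * β * lin q + β ^ 2 * lin r = 0) :
    ∃ x y : ℂ, (x ≠ 0 ∨ y ≠ 0) ∧ ∀ l, x ^ 2 * p l + 2 * x * y * q l + y ^ 2 * r l = 0 := by
  by_cases hp : ∀ l, p l = 0
  · exact ⟨1, 0, Or.inl one_ne_zero, fun l => by simp [hp l]⟩
  by_cases hr : ∀ l, r l = 0
  · exact ⟨0, 1, Or.inr one_ne_zero, fun l => by simp [hr l]⟩
  have hp' : lin p ≠ 0 := fun h => hp (lin_eq_zero h)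
  have hr' : lin r ≠ 0 := fun h => hr (lin_eq_zero h)
  have hα : α ≠ 0 := by
    rintro rfl
    have hβ : β ≠ 0 := by simpa using h0
    have : β ^ 2 * lin r = 0 := by simpa using h
    exact (mul_ne_zero (pow_ne_zero 2 hβ) hr') this
  obtain ⟨a, b, g, hab, ha, hb⟩ := UniqueFactorizationMonoid.exists_reduced_factors α hα β
  have hg : g ≠ 0 := by rintro rfl; exact hα (by rw [← ha, zero_mul])
  have ha0 : a ≠ 0 := by rintro rfl; exact hα (by rw [← ha, mul_zero])
  have h1 : a ^ 2 * lin p + 2 * a * b * lin q + b ^ 2 * lin r = 0 := by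
    have : g ^ 2 * (a ^ 2 * lin p + 2 * a * b * lin q + b ^ 2 * lin r) = 0 := by
      rw [← h, ← ha, ← hb]; ring
    exact (mul_eq_zero.1 this).resolve_left (pow_ne_zero 2 hg)
  have hb0 : b ≠ 0 := by
    rintro rfl
    have : a ^ 2 * lin p = 0 := by simpa using h1
    exact (mul_ne_zero (pow_ne_zero 2 ha0) hp') this
  have hda : a ∣ lin r := by
    have : a ∣ b ^ 2 * lin r := ⟨-(a * lin p + 2 * b * lin q), by linear_combination h1⟩
    exact (hab.pow_right).dvd_of_dvd_mul_left this
  have hdb : b ∣ lin p := by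
    have : b ∣ a ^ 2 * lin p := ⟨-(b * lin r + 2 * a * lin q), by linear_combination h1⟩
    exact (hab.symm.pow_right).dvd_of_dvd_mul_left this
  obtain ⟨c, hc⟩ := hda
  obtain ⟨d, hd⟩ := hdb
  have hc0 : c ≠ 0 := by rintro rfl; exact hr' (by rw [hc, mul_zero])
  have hd0 : d ≠ 0 := by rintro rfl; exact hp' (by rw [hd, mul_zero])
  have htc : a.totalDegree + c.totalDegree ≤ 1 := by
    rw [← totalDegree_mul_of_isDomain ha0 hc0, ← hc]; exact totalDegree_lin r
  have htd : b.totalDegree + d.totalDegree ≤ 1 := by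
    rw [← totalDegree_mul_of_isDomain hb0 hd0, ← hd]; exact totalDegree_lin p
  by_cases hz : eval 0 a ≠ 0 ∨ eval 0 b ≠ 0
  · refine ⟨eval 0 a, eval 0 b, hz, fun l => ?_⟩
    have h2 := congrArg (fun P => eval 0 (pderiv l P)) h1
    simp only [map_add, Derivation.leibniz, smul_eq_mul, map_mul, map_pow, pderiv_lin, eval_lin,
      map_zero, eval_C, Derivation.leibniz_pow, mul_zero, add_zero] at h2
    have h3 : eval (0 : Fin 4 → ℂ) (2 : MvPolynomial (Fin 4) ℂ) = 2 := by
      simpa using (map_ofNat (eval (0 : Fin 4 → ℂ)) 2)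
    simp only [h3] at h2
    linear_combination h2
  · have hea : eval 0 a = 0 := by by_contra hh; exact hz (Or.inl hh)
    have heb : eval 0 b = 0 := by by_contra hh; exact hz (Or.inr hh)
    have hta : a.totalDegree ≠ 0 := by
      intro h'
      obtain ⟨c', hc'⟩ := const_of_totalDegree h'
      rw [hc', eval_C] at hea
      exact ha0 (by rw [hc', hea, C_0])
    have htb : b.totalDegree ≠ 0 := by
      intro h'
      obtain ⟨c', hc'⟩ := const_of_totalDegree h'
      rw [hc', eval_C] at heb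
      exact hb0 (by rw [hc', heb, C_0])
    obtain ⟨c', rfl⟩ := const_of_totalDegree (g := c) (by omega)
    obtain ⟨d', rfl⟩ := const_of_totalDegree (g := d) (by omega)
    have hc'0 : c' ≠ 0 := by rintro rfl; exact hc0 C_0
    refine ⟨c', d', Or.inl hc'0, ?_⟩
    have h4 : C d' * a + 2 * lin q + C c' * b = 0 := by
      have : (a * b) * (C d' * a + 2 * lin q + C c' * b) = 0 := by
        rw [← h1, hc, hd]; ring
      exact (mul_eq_zero.1 this).resolve_left (mul_ne_zero ha0 hb0)
    have h5 : lin (fun l => c' ^ 2 * p l + 2 * c' * d' * q l + d' ^ 2 * r l) = 0 := by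
      have e : lin (fun l => c' ^ 2 * p l + 2 * c' * d' * q l + d' ^ 2 * r l)
          = C c' ^ 2 * lin p + 2 * C c' * C d' * lin q + C d' ^ 2 * lin r := by
        simp only [lin, Finset.mul_sum, ← Finset.sum_add_distrib]
        refine Finset.sum_congr rfl (fun l _ => ?_)
        have h2 : (C (2 : ℂ) : MvPolynomial (Fin 4) ℂ) = 2 := by simpa using (map_ofNat C 2)
        simp only [C_add, C_mul, C_pow, h2]
        ring
      rw [e, hc, hd]
      linear_combination (C c' * C d') * h4
    exact lin_eq_zero h5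

end

end Pool.Agent.V1174.C3.An
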