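import Pool.Agent.Y201.C3.Stm
import Pool.Agent.V1174.C3.AnCore

/-! # Project C3, job AN (helper159): anisotropy of a symmetric matrix from a local condition -/

set_option autoImplicit false

namespace Pool.Agent.V1174.C3.An

open MvPolynomial

noncomputable section

abbrev R4 : Type := MvPolynomial (Fin 4) ℂ

/-- the substitution `x ↦ η + s x` -/
def phi (η : Fin 4 → ℂ) : R4 →ₐ[ℂ] Polynomial R4 :=
  aeval (fun l => Polynomial.C (C (η l)) + Polynomial.X * Polynomial.C (X l))

theorem phi_X (η : Fin 4 → ℂ) (l : Fin 4) :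
    phi η (X l) = Polynomial.C (C (η l)) + Polynomial.X * Polynomial.C (X l) := by
  simp [phi]

theorem phi_C (η : Fin 4 → ℂ) (a : ℂ) : phi η (C a) = Polynomial.C (C a) := by
  have h : (C a : R4) = algebraMap ℂ R4 a := rfl
  rw [h, AlgHom.commutes]
  rfl

theorem phi_coeff_zero (η : Fin 4 → ℂ) (P : R4) : (phi η P).coeff 0 = C (eval η P) := by
  induction P using MvPolynomial.induction_on with
  | C a => simp [phi_C]
  | add p q hp hq => simp [hp, hq]
  | mul_X p l hp => simp [Polynomial.mul_coeff_zero, hp, phi_X]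

theorem phi_coeff_one (η : Fin 4 → ℂ) (P : R4) :
    (phi η P).coeff 1 = lin (fun l => eval η (pderiv l P)) := by
  induction P using MvPolynomial.induction_on with
  | C a => simp [phi_C, lin, Polynomial.coeff_C]
  | add p q hp hq =>
    simp only [map_add, Polynomial.coeff_add, hp, hq, lin, ← Finset.sum_add_distrib, C_add, add_mul]
  | mul_X p l hp =>
    rw [map_mul, Polynomial.mul_coeff_one, hp, phi_coeff_zero, phi_X]
    have e0 : (Polynomial.C (C (η l)) + Polynomial.X * Polynomial.C (X l) : Polynomial R4).coeff 0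
        = C (η l) := by simp
    have e1 : (Polynomial.C (C (η l)) + Polynomial.X * Polynomial.C (X l) : Polynomial R4).coeff 1
        = X l := by simp [Polynomial.coeff_C]
    rw [e0, e1]
    unfold lin
    have e2 : ∀ k : Fin 4, C (eval η (pderiv k (p * X l))) * (X k : R4)
        = C (eval η (pderiv k p)) * X k * C (η l) + C (eval η p) * (if k = l then X k else 0) := by
      intro k
      rw [Derivation.leibniz]
      by_cases hk : k = l
      · subst hk
        simp only [pderiv_X_self, smul_eq_mul, map_add, map_mul, map_one, eval_X, C_add, C_mul,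
          if_true]
        ring
      · simp only [pderiv_X_of_ne (Ne.symm hk), smul_eq_mul, map_add, map_mul, map_zero, eval_X,
          C_add, C_mul, if_neg hk]
        ring
    rw [Finset.sum_congr rfl (fun k _ => e2 k), Finset.sum_add_distrib, ← Finset.sum_mul,
      ← Finset.mul_sum]
    simp only [Finset.sum_ite_eq', Finset.mem_univ, if_true]
    ring

theorem phi_ne_zero (η : Fin 4 → ℂ) {P : R4} (hP : P ≠ 0) : phi η P ≠ 0 := by
  intro h
  apply hP
  have key : ∀ Q : R4, Polynomial.eval₂ ((aeval (fun l => (X l - C (η l) : R4)) : R4 →ₐ[ℂ] R4) :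
      R4 →+* R4) 1 (phi η Q) = Q := by
    intro Q
    induction Q using MvPolynomial.induction_on with
    | C a =>
      rw [phi_C, Polynomial.eval₂_C]
      simp
    | add p q hp hq => rw [map_add, Polynomial.eval₂_add, hp, hq]
    | mul_X p l hp =>
      rw [map_mul, Polynomial.eval₂_mul, hp, phi_X]
      simp [Polynomial.eval₂_add, Polynomial.eval₂_mul]
  rw [← key P, h, Polynomial.eval₂_zero]

/-- dividing by the variable -/
theorem reduce (M : Matrix (Fin 3) (Fin 3) (Polynomial R4)) :
    ∀ (n : ℕ) (W : Fin 3 → Polynomial R4), (∀ i, (W i).natDegree ≤ n) → W ≠ 0 →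
      ∑ i, ∑ j, W i * M i j * W j = 0 →
      ∃ W' : Fin 3 → Polynomial R4, (∃ i, (W' i).coeff 0 ≠ 0) ∧
        ∑ i, ∑ j, W' i * M i j * W' j = 0 := by
  intro n
  induction n with
  | zero =>
    intro W hn hW h
    refine ⟨W, ?_, h⟩
    by_contra hc
    push Not at hc
    apply hW
    funext i
    have h1 := Polynomial.eq_C_of_natDegree_le_zero (hn i)
    rw [h1, hc i]; simp
  | succ n ih =>
    intro W hn hW h
    by_cases hc : ∃ i, (W i).coeff 0 ≠ 0
    · exact ⟨W, hc, h⟩
    push Not at hc
    have hd : ∀ i, W i = Polynomial.X * (W i).divX := by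
      intro i
      have h1 := Polynomial.divX_mul_X_add (W i)
      rw [hc i, Polynomial.C_0, add_zero] at h1
      rw [mul_comm]; exact h1.symm
    refine ih (fun i => (W i).divX) (fun i => ?_) ?_ ?_
    · rw [Polynomial.natDegree_divX_eq_natDegree_tsub_one]
      have := hn i; omega
    · intro h0
      apply hW
      funext i
      have h1 : (W i).divX = 0 := congrFun h0 i
      rw [hd i, h1, mul_zero]; rfl
    · have h2 : (Polynomial.X : Polynomial R4) ^ 2 *
          ∑ i, ∑ j, (W i).divX * M i j * (W j).divX = 0 := by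
        rw [← h, Finset.mul_sum]
        refine Finset.sum_congr rfl (fun i _ => ?_)
        rw [Finset.mul_sum]
        refine Finset.sum_congr rfl (fun j _ => ?_)
        conv_rhs => rw [hd i, hd j]
        ring
      exact (mul_eq_zero.1 h2).resolve_left (pow_ne_zero 2 Polynomial.X_ne_zero)

/-- the kernel of a symmetric matrix of rank one -/
theorem kernel (a : Fin 3 → Fin 3 → ℂ) (m : Fin 3) (hm : a m m ≠ 0) (V : Fin 3 → R4)
    (hV : ∑ j, C (a j m) * V j = 0) (hV0 : V ≠ 0) :
    ∃ (e f : Fin 3 → ℂ) (α β : R4), (∀ i, V i = C (e i) * α + C (f i) * β) ∧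
      ∑ j, a j m * e j = 0 ∧ ∑ j, a j m * f j = 0 ∧ (α ≠ 0 ∨ β ≠ 0) ∧
      ∀ x y : ℂ, (x ≠ 0 ∨ y ≠ 0) → (fun i => x * e i + y * f i) ≠ 0 := by
  have hC : ∀ c : ℂ, c ≠ 0 → (C c : R4) * C c⁻¹ = 1 := fun c hc => by
    rw [← C_mul, mul_inv_cancel₀ hc, C_1]
  rw [Fin.sum_univ_three] at hV
  fin_cases m
  · simp only [Fin.zero_eta, Fin.isValue] at hV hm ⊢
    have h1 := hC _ hm
    refine ⟨![-(a 1 0) * (a 0 0)⁻¹, 1, 0], ![-(a 2 0) * (a 0 0)⁻¹, 0, 1], V 1, V 2, ?_, ?_, ?_, ?_, ?_⟩
    · intro i
      fin_cases i
      · simp only [Fin.zero_eta, Fin.isValue, Matrix.cons_val_zero, C_mul, C_neg]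
        linear_combination (C (a 0 0)⁻¹) * hV - (V 0) * h1
      · simp
      · simp
    · rw [Fin.sum_univ_three]; simp; field_simp; ring
    · rw [Fin.sum_univ_three]; simp; field_simp; ring
    · by_contra hc
      push Not at hc
      rw [hc.1, hc.2] at hV
      have h0 : V 0 = 0 := by
        simp only [mul_zero, add_zero, mul_eq_zero] at hV
        exact hV.resolve_left (by simpa using hm)
      apply hV0
      funext i
      fin_cases i
      · exact h0
      · exact hc.1
      · exact hc.2
    · intro x y hxy h0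
      have e1 := congrFun h0 1
      have e2 := congrFun h0 2
      simp at e1 e2
      rcases hxy with h | h
      · exact h e1
      · exact h e2
  · simp only [Fin.mk_one, Fin.isValue] at hV hm ⊢
    have h1 := hC _ hm
    refine ⟨![1, -(a 0 1) * (a 1 1)⁻¹, 0], ![0, -(a 2 1) * (a 1 1)⁻¹, 1], V 0, V 2, ?_, ?_, ?_, ?_, ?_⟩
    · intro i
      fin_cases i
      · simp
      · simp only [Fin.mk_one, Fin.isValue, Matrix.cons_val_one, Matrix.cons_val_zero, C_mul, C_neg]
        linear_combination (C (a 1 1)⁻¹) * hV - (V 1) * h1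
      · simp
    · rw [Fin.sum_univ_three]; simp; field_simp; ring
    · rw [Fin.sum_univ_three]; simp; field_simp; ring
    · by_contra hc
      push Not at hc
      rw [hc.1, hc.2] at hV
      have h0 : V 1 = 0 := by
        simp only [mul_zero, add_zero, zero_add, mul_eq_zero] at hV
        exact hV.resolve_left (by simpa using hm)
      apply hV0
      funext i
      fin_cases i
      · exact hc.1
      · exact h0
      · exact hc.2
    · intro x y hxy h0
      have e1 := congrFun h0 0
      have e2 := congrFun h0 2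
      simp at e1 e2
      rcases hxy with h | h
      · exact h e1
      · exact h e2
  · simp only [Fin.reduceFinMk, Fin.isValue] at hV hm ⊢
    have h1 := hC _ hm
    refine ⟨![1, 0, -(a 0 2) * (a 2 2)⁻¹], ![0, 1, -(a 1 2) * (a 2 2)⁻¹], V 0, V 1, ?_, ?_, ?_, ?_, ?_⟩
    · intro i
      fin_cases i
      · simp
      · simp
      · simp only [Fin.reduceFinMk, Fin.isValue, Matrix.cons_val, C_mul, C_neg]
        linear_combination (C (a 2 2)⁻¹) * hV - (V 2) * h1
    · rw [Fin.sum_univ_three]; simp; field_simp; ring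
    · rw [Fin.sum_univ_three]; simp; field_simp; ring
    · by_contra hc
      push Not at hc
      rw [hc.1, hc.2] at hV
      have h0 : V 2 = 0 := by
        simp only [mul_zero, add_zero, zero_add, mul_eq_zero] at hV
        exact hV.resolve_left (by simpa using hm)
      apply hV0
      funext i
      fin_cases i
      · exact hc.1
      · exact hc.2
      · exact h0
    · intro x y hxy h0
      have e1 := congrFun h0 0
      have e2 := congrFun h0 1
      simp at e1 e2
      rcases hxy with h | h
      · exact h e1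
      · exact h e2

theorem t_an : Pool.Agent.Y201.C3.S_AN := by
  intro A hA η hne hmin hker V hV
  by_contra hV0
  set a : Fin 3 → Fin 3 → ℂ := fun i j => eval η (A i j) with ha
  have hsym : ∀ i j, A i j = A j i := fun i j => (hA.apply j i)
  have hasym : ∀ i j, a i j = a j i := fun i j => by simp only [ha]; rw [hsym i j]
  obtain ⟨m, hm⟩ : ∃ m, a m m ≠ 0 := by
    obtain ⟨i, j, hij⟩ := hne
    have h1 : a i i * a j j = a i j * a j i := hmin i j i j
    refine ⟨i, fun h => ?_⟩
    rw [h, zero_mul, hasym j i] at h1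
    exact hij (mul_self_eq_zero.1 h1.symm)
  -- pass to polynomials in `s`
  set M : Matrix (Fin 3) (Fin 3) (Polynomial R4) := fun i j => phi η (A i j) with hM
  have hW : ∑ i, ∑ j, phi η (V i) * M i j * phi η (V j) = 0 := by
    rw [← map_zero (phi η), ← hV, map_sum]
    refine Finset.sum_congr rfl (fun i _ => ?_)
    rw [map_sum]
    refine Finset.sum_congr rfl (fun j _ => ?_)
    rw [map_mul, map_mul]
  have hW0 : (fun i => phi η (V i)) ≠ 0 := by
    intro h0
    apply hV0
    funext i
    by_contra h1
    exact phi_ne_zero η h1 (congrFun h0 i)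
  obtain ⟨W, ⟨i0, hi0⟩, hWeq⟩ := reduce M (Finset.univ.sup fun i => (phi η (V i)).natDegree)
    (fun i => phi η (V i)) (fun i => Finset.le_sup (f := fun i => (phi η (V i)).natDegree)
      (Finset.mem_univ i)) hW0 hW
  set U : Fin 3 → R4 := fun i => (W i).coeff 0 with hU
  set U1 : Fin 3 → R4 := fun i => (W i).coeff 1 with hU1
  have hU0 : U ≠ 0 := fun h => hi0 (congrFun h i0)
  set D : Fin 3 → Fin 3 → Fin 4 → ℂ := fun i j l => eval η (pderiv l (A i j)) with hD
  have hc0 : ∑ i, ∑ j, U i * C (a i j) * U j = 0 := by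
    have h := congrArg (fun P => Polynomial.coeff P 0) hWeq
    simp only [Polynomial.finsetSum_coeff, Polynomial.mul_coeff_zero, Polynomial.coeff_zero, hM,
      phi_coeff_zero] at h
    exact h
  have hc1 : ∑ i, ∑ j, ((U i * C (a i j)) * U1 j + (U i * lin (D i j) + U1 i * C (a i j)) * U j)
      = 0 := by
    have h := congrArg (fun P => Polynomial.coeff P 1) hWeq
    simp only [Polynomial.finsetSum_coeff, Polynomial.mul_coeff_one, Polynomial.mul_coeff_zero,
      Polynomial.coeff_zero, hM, phi_coeff_zero, phi_coeff_one] at h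
    exact h
  have haprod : ∀ i j, a i j * a m m = a i m * a m j := fun i j => hmin i m j m
  -- the vector `U` is in the kernel
  have hS : ∑ j, C (a j m) * U j = 0 := by
    have h1 : (∑ j, C (a j m) * U j) * (∑ j, C (a j m) * U j) = 0 := by
      have h2 : C (a m m) * ∑ i, ∑ j, U i * C (a i j) * U j = 0 := by rw [hc0, mul_zero]
      rw [← h2, Finset.sum_mul_sum, Finset.mul_sum]
      refine Finset.sum_congr rfl (fun i _ => ?_)
      rw [Finset.mul_sum]
      refine Finset.sum_congr rfl (fun j _ => ?_)
      have h3 : (C (a i j) * C (a m m) : R4) = C (a i m) * C (a j m) := by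
        rw [← C_mul, ← C_mul, haprod i j, hasym m j]
      linear_combination (-(U i) * U j) * h3
    exact mul_self_eq_zero.1 h1
  have hCm : (C (a m m) : R4) ≠ 0 := by simpa using hm
  have hker1 : ∀ i, ∑ j, C (a i j) * U j = 0 := by
    intro i
    have h1 : C (a m m) * ∑ j, C (a i j) * U j = 0 := by
      have h2 : C (a i m) * ∑ j, C (a j m) * U j = 0 := by rw [hS, mul_zero]
      rw [← h2, Finset.mul_sum, Finset.mul_sum]
      refine Finset.sum_congr rfl (fun j _ => ?_)
      have h3 : (C (a i j) * C (a m m) : R4) = C (a i m) * C (a j m) := by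
        rw [← C_mul, ← C_mul, haprod i j, hasym m j]
      linear_combination (U j) * h3
    exact (mul_eq_zero.1 h1).resolve_left hCm
  have hlin : ∑ i, ∑ j, U i * lin (D i j) * U j = 0 := by
    have e1 : ∑ i, ∑ j, (U i * C (a i j)) * U1 j = 0 := by
      rw [Finset.sum_comm]
      refine Finset.sum_eq_zero (fun j _ => ?_)
      have h1 := hker1 j
      have h2 : ∑ i, (U i * C (a i j)) * U1 j = (∑ i, C (a j i) * U i) * U1 j := by
        rw [Finset.sum_mul]
        refine Finset.sum_congr rfl (fun i _ => ?_)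
        rw [hasym i j]; ring
      rw [h2, h1, zero_mul]
    have e2 : ∑ i, ∑ j, (U1 i * C (a i j)) * U j = 0 := by
      refine Finset.sum_eq_zero (fun i _ => ?_)
      have h2 : ∑ j, (U1 i * C (a i j)) * U j = U1 i * ∑ j, C (a i j) * U j := by
        rw [Finset.mul_sum]
        refine Finset.sum_congr rfl (fun j _ => ?_)
        ring
      rw [h2, hker1 i, mul_zero]
    have e3 : ∑ i, ∑ j, ((U i * C (a i j)) * U1 j + (U i * lin (D i j) + U1 i * C (a i j)) * U j)
        = ∑ i, ∑ j, (U i * C (a i j)) * U1 j + ∑ i, ∑ j, U i * lin (D i j) * U j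
          + ∑ i, ∑ j, (U1 i * C (a i j)) * U j := by
      simp only [← Finset.sum_add_distrib]
      refine Finset.sum_congr rfl (fun i _ => Finset.sum_congr rfl (fun j _ => ?_))
      ring
    rw [e3, e1, e2, zero_add, add_zero] at hc1
    exact hc1
  obtain ⟨e, f, α, β, hVe, hke, hkf, hαβ, hindep⟩ := kernel a m hm U hS hU0
  have hDs : ∀ i j l, D i j l = D j i l := fun i j l => by simp only [hD]; rw [hsym i j]
  set P : (Fin 3 → ℂ) → (Fin 3 → ℂ) → Fin 4 → ℂ := fun u v l => ∑ i, ∑ j, u i * v j * D i j l
    with hP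
  have hlinP : ∀ u v : Fin 3 → ℂ, lin (P u v) = ∑ i, ∑ j, C (u i) * C (v j) * lin (D i j) := by
    intro u v
    simp only [hP, lin, Finset.mul_sum, map_sum, Finset.sum_mul, C_mul]
    rw [Finset.sum_comm]
    refine Finset.sum_congr rfl (fun i _ => ?_)
    rw [Finset.sum_comm]
    refine Finset.sum_congr rfl (fun j _ => ?_)
    refine Finset.sum_congr rfl (fun l _ => ?_)
    ring
  have hPs : P e f = P f e := by
    funext l
    simp only [hP]
    rw [Finset.sum_comm]
    refine Finset.sum_congr rfl (fun i _ => Finset.sum_congr rfl (fun j _ => ?_))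
    rw [hDs j i l]; ring
  have hrel : α ^ 2 * lin (P e e) + 2 * α * β * lin (P e f) + β ^ 2 * lin (P f f) = 0 := by
    have h1 : α ^ 2 * lin (P e e) + α * β * lin (P e f) + α * β * lin (P f e)
        + β ^ 2 * lin (P f f) = 0 := by
      rw [← hlin]
      simp only [hlinP, Finset.mul_sum, ← Finset.sum_add_distrib]
      refine Finset.sum_congr rfl (fun i _ => Finset.sum_congr rfl (fun j _ => ?_))
      rw [hVe i, hVe j]
      ring
    rw [← hPs] at h1
    linear_combination h1
  obtain ⟨x, y, hxy, hz⟩ := core (P e e) (P e f) (P f f) α β hαβ hrel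
  obtain ⟨l, hl⟩ := hker (fun i => x * e i + y * f i) (hindep x y hxy) (by
    intro i
    show ∑ j, a i j * (x * e j + y * f j) = 0
    have h1 : a m m * ∑ j, a i j * (x * e j + y * f j)
        = a i m * (x * ∑ j, a j m * e j + y * ∑ j, a j m * f j) := by
      rw [Finset.mul_sum, Finset.mul_sum, Finset.mul_sum, ← Finset.sum_add_distrib, Finset.mul_sum]
      refine Finset.sum_congr rfl (fun j _ => ?_)
      have h2 := haprod i j
      rw [hasym m j] at h2
      linear_combination (x * e j + y * f j) * h2
    rw [hke, hkf, mul_zero, mul_zero, add_zero, mul_zero] at h1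
    exact (mul_eq_zero.1 h1).resolve_left hm)
  apply hl
  have h1 : eval η (pderiv l (∑ i, ∑ j, C (x * e i + y * f i) * A i j * C (x * e j + y * f j)))
      = ∑ i, ∑ j, (x * e i + y * f i) * (x * e j + y * f j) * D i j l := by
    rw [map_sum, map_sum]
    refine Finset.sum_congr rfl (fun i _ => ?_)
    rw [map_sum, map_sum]
    refine Finset.sum_congr rfl (fun j _ => ?_)
    rw [Derivation.leibniz, Derivation.leibniz, pderiv_C, pderiv_C]
    simp only [smul_eq_mul, mul_zero, add_zero, zero_add, map_mul, eval_C, hD]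
    ring
  rw [h1, ← hz l]
  have h2 : 2 * x * y * P e f l = x * y * P e f l + x * y * P f e l := by
    rw [← hPs]; ring
  rw [h2]
  simp only [hP, Finset.mul_sum, ← Finset.sum_add_distrib]
  refine Finset.sum_congr rfl (fun i _ => Finset.sum_congr rfl (fun j _ => ?_))
  ring

end

end Pool.Agent.V1174.C3.An
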