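import Mathlib
import Pool.Agent.Y201.C3.Tri
import Pool.Agent.Y201.LI.Stm2

/-! # Job ANI2: the conic over the function field of `P^3` is anisotropic -/

set_option autoImplicit false
set_option linter.unusedSectionVars false

namespace Pool.Agent.V1174.C3.Ani2

open MvPolynomial Pool.Agent.Y201.C3 Pool.Agent.Y201.LI

noncomputable section

variable {R : Type} [CommRing R] [Algebra ℂ R]

theorem pderiv_Bf (T : Fin 6 → Fin 6 → Fin 6 → ℂ) (l : Fin 4)
    (x y z : Fin 6 → MvPolynomial (Fin 4) ℂ) :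
    pderiv l (Bf T x y z) = Bf T (fun i => pderiv l (x i)) y z +
      Bf T x (fun i => pderiv l (y i)) z + Bf T x y (fun i => pderiv l (z i)) := by
  unfold Bf
  simp only [map_sum, ← Finset.sum_add_distrib]
  refine Finset.sum_congr rfl fun i _ => Finset.sum_congr rfl fun j _ =>
    Finset.sum_congr rfl fun k _ => ?_
  rw [pderiv_mul, pderiv_mul, pderiv_mul, algebraMap_eq, pderiv_C]
  ring

theorem eval_Bf (T : Fin 6 → Fin 6 → Fin 6 → ℂ) (η : Fin 4 → ℂ)
    (x y z : Fin 6 → MvPolynomial (Fin 4) ℂ) :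
    eval η (Bf T x y z) = Bf T (fun i => eval η (x i)) (fun i => eval η (y i))
      (fun i => eval η (z i)) := by
  unfold Bf
  simp only [map_sum, map_mul, algebraMap_eq, eval_C, Algebra.algebraMap_self, RingHom.id_apply]

theorem pderiv_E (l : Fin 4) (a : Fin 6) :
    (fun i => pderiv l ((E a : Fin 6 → MvPolynomial (Fin 4) ℂ) i)) = fun _ => 0 := by
  funext i
  unfold E
  by_cases h : i = a
  · subst h
    simp
  · simp [Pi.single_eq_of_ne h]

theorem eval_E (η : Fin 4 → ℂ) (a : Fin 6) :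
    (fun i => eval η ((E a : Fin 6 → MvPolynomial (Fin 4) ℂ) i)) = E a := by
  funext i
  unfold E
  by_cases h : i = a
  · subst h
    simp
  · simp [Pi.single_eq_of_ne h]

theorem Bf_zero1 (T : Fin 6 → Fin 6 → Fin 6 → ℂ) (y z : Fin 6 → R) :
    Bf T (fun _ => 0) y z = 0 := by
  unfold Bf
  simp

theorem Bf_zero2 (T : Fin 6 → Fin 6 → Fin 6 → ℂ) (y z : Fin 6 → R) :
    Bf T y (fun _ => 0) z = 0 := by
  unfold Bf
  simp

theorem Bf_zero3 (T : Fin 6 → Fin 6 → Fin 6 → ℂ) (y z : Fin 6 → R) :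
    Bf T y z (fun _ => 0) = 0 := by
  unfold Bf
  simp

/-- the index of the coordinate `l` of the last four -/
def up (l : Fin 4) : Fin 6 := l.succ.succ

/-- value of the generic vector -/
def yv (η : Fin 4 → ℂ) : Fin 6 → ℂ := ![0, 0, η 0, η 1, η 2, η 3]

theorem eval_yy (η : Fin 4 → ℂ) : (fun i => eval η (yy i)) = yv η := by
  funext i
  fin_cases i <;> simp [yy, yv]

theorem eval_dyy (η : Fin 4 → ℂ) (l : Fin 4) :
    (fun i => eval η (pderiv l (yy i))) = E (up l) := by
  funext i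
  fin_cases l <;> fin_cases i <;> simp [yy, E, up, pderiv_X, Fin.ext_iff]

theorem Bf_EEE {T : Fin 6 → Fin 6 → Fin 6 → ℂ} (a b c : Fin 6) :
    Bf T (E a : Fin 6 → ℂ) (E b) (E c) = T a b c := by
  unfold Bf E
  simp [Pi.single_apply]

theorem Bf_E {T : Fin 6 → Fin 6 → Fin 6 → ℂ} (a : Fin 6) (z : Fin 6 → ℂ) :
    Bf T (E a : Fin 6 → ℂ) z z = ∑ j, ∑ k, T a j k * z j * z k := by
  unfold Bf E
  simp [Pi.single_apply]

theorem sw12 {T : Fin 6 → Fin 6 → Fin 6 → ℂ} (hT : SymT T) (x y z : Fin 6 → R) :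
    Bf T x y z = Bf T y x z := Bg_swap12 (σ := Fin 6) hT x y z

theorem sw23 {T : Fin 6 → Fin 6 → Fin 6 → ℂ} (hT : SymT T) (x y z : Fin 6 → R) :
    Bf T x y z = Bf T x z y := Bg_swap23 (σ := Fin 6) hT x y z

/-- the point of the plane -/
def pt (u : Fin 3 → ℂ) (y : Fin 6 → ℂ) : Fin 6 → ℂ :=
  fun i => u 0 * (E 0 : Fin 6 → ℂ) i + (u 1 * (E 1 : Fin 6 → ℂ) i + u 2 * y i)

theorem Bf_pt {T : Fin 6 → Fin 6 → Fin 6 → ℂ} (hT : SymT T) (u : Fin 3 → ℂ) (y z : Fin 6 → ℂ) :
    Bf T (pt u y) (pt u y) z = u 0 ^ 2 * Bf T (E 0) (E 0) z + 2 * u 0 * u 1 * Bf T (E 0) (E 1) z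
      + u 1 ^ 2 * Bf T (E 1) (E 1) z + 2 * u 0 * u 2 * Bf T (E 0) y z +
      2 * u 1 * u 2 * Bf T (E 1) y z + u 2 ^ 2 * Bf T y y z := by
  have h1 : ∀ w : Fin 6 → ℂ, Bf T (pt u y) w z = u 0 * Bf T (E 0) w z + (u 1 * Bf T (E 1) w z +
      u 2 * Bf T y w z) := by
    intro w
    have e1 := Bg_add1 T (fun i => u 0 * (E 0 : Fin 6 → ℂ) i)
      (fun i => u 1 * (E 1 : Fin 6 → ℂ) i + u 2 * y i) w z
    have e2 := Bg_add1 T (fun i => u 1 * (E 1 : Fin 6 → ℂ) i) (fun i => u 2 * y i) w z
    have e3 := Bg_smul1 T (u 0) (E 0 : Fin 6 → ℂ) w z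
    have e4 := Bg_smul1 T (u 1) (E 1 : Fin 6 → ℂ) w z
    have e5 := Bg_smul1 T (u 2) y w z
    rw [e2, e3, e4, e5] at e1
    exact e1
  rw [h1, sw12 hT (E 0) (pt u y), sw12 hT (E 1) (pt u y), sw12 hT y (pt u y), h1, h1, h1,
    sw12 hT (E 1) (E 0), sw12 hT y (E 0), sw12 hT y (E 1)]
  ring

theorem gu_expand {T : Fin 6 → Fin 6 → Fin 6 → ℂ} (u : Fin 3 → ℂ) :
    (∑ i, ∑ j, C (u i) * cm T yy i j * C (u j)) =
      C (3 * u 0 ^ 2) * Bf T (E 0) (E 0) yy + C (6 * u 0 * u 1) * Bf T (E 0) (E 1) yy +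
      C (3 * u 1 ^ 2) * Bf T (E 1) (E 1) yy + C (3 * u 0 * u 2) * Bf T (E 0) yy yy +
      C (3 * u 1 * u 2) * Bf T (E 1) yy yy + C (u 2 ^ 2) * Bf T yy yy yy := by
  have h3 : (3 : MvPolynomial (Fin 4) ℂ) = C 3 := (map_ofNat C 3).symm
  have h6 : C (3 * u 0 * u 2) = (C (3 / 2) * C (u 0) * C (u 2) * 2 : MvPolynomial (Fin 4) ℂ) := by
    have h2 : (2 : MvPolynomial (Fin 4) ℂ) = C 2 := (map_ofNat C 2).symm
    rw [h2, ← C_mul, ← C_mul, ← C_mul]
    congr 1
    ring
  have h7 : C (3 * u 1 * u 2) = (C (3 / 2) * C (u 1) * C (u 2) * 2 : MvPolynomial (Fin 4) ℂ) := by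
    have h2 : (2 : MvPolynomial (Fin 4) ℂ) = C 2 := (map_ofNat C 2).symm
    rw [h2, ← C_mul, ← C_mul, ← C_mul]
    congr 1
    ring
  have h8 : C (6 * u 0 * u 1) = (6 * C (u 0) * C (u 1) : MvPolynomial (Fin 4) ℂ) := by
    have h2 : (6 : MvPolynomial (Fin 4) ℂ) = C 6 := (map_ofNat C 6).symm
    rw [h2, ← C_mul, ← C_mul]
  rw [h6, h7, h8]
  simp only [Fin.sum_univ_three, cm, Matrix.of_apply, Matrix.cons_val', Matrix.cons_val_zero,
    Matrix.cons_val_one, Matrix.cons_val_two, Matrix.head_cons, Matrix.tail_cons,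
    Matrix.cons_val_fin_one, Matrix.empty_val', Matrix.head_fin_const,
    algebraMap_eq, C_mul, C_pow, ← h3]
  ring

/-- the derivative of the conic at a point of the kernel -/
theorem deriv_eq {T : Fin 6 → Fin 6 → Fin 6 → ℂ} (hT : SymT T) (η : Fin 4 → ℂ) (l : Fin 4)
    (u : Fin 3 → ℂ) :
    eval η (pderiv l (∑ i, ∑ j, C (u i) * cm T yy i j * C (u j))) =
      3 * Bf T (pt u (yv η)) (pt u (yv η)) (E (up l)) := by
  rw [gu_expand, Bf_pt hT]
  simp only [map_add, pderiv_mul, pderiv_C, zero_mul, zero_add, map_mul, eval_C, pderiv_Bf,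
    pderiv_E, Bf_zero1, Bf_zero2, eval_Bf, eval_E, eval_yy, eval_dyy, map_zero]
  rw [sw23 hT (E 0) (E (up l)) (yv η), sw23 hT (E 1) (E (up l)) (yv η),
    sw12 hT (E (up l)) (yv η) (yv η), sw23 hT (yv η) (E (up l)) (yv η)]
  ring

theorem cm_eval {T : Fin 6 → Fin 6 → Fin 6 → ℂ} (η : Fin 4 → ℂ) (i j : Fin 3) :
    eval η (cm T yy i j) = cm T (yv η) i j := by
  fin_cases i <;> fin_cases j <;>
    simp [cm, eval_Bf, eval_E, eval_yy, algebraMap_eq]

theorem cm_symm {T : Fin 6 → Fin 6 → Fin 6 → ℂ} (y : Fin 6 → R) : (cm T y).IsSymm := by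
  ext i j
  fin_cases i <;> fin_cases j <;> rfl

theorem t_ani2 (hAN : S_AN) (hETA : S_ETA) : S_ANI2 := by
  intro T hT hS hL hP V hV
  have hsym : (cm T yy).IsSymm := cm_symm yy
  have h00 : ∀ i j, eval 0 (cm T yy i j) = 0 := by
    intro i j
    rw [cm_eval]
    have hy0 : yv (0 : Fin 4 → ℂ) = fun _ => 0 := by
      funext i
      fin_cases i <;> simp [yv]
    rw [hy0]
    fin_cases i <;> fin_cases j <;> simp [cm, Bf_zero3]
  obtain ⟨η, hη, hrk⟩ := hETA (cm T yy) hsym h00
  set y : Fin 6 → ℂ := yv η with hydef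
  have hy0 : y 0 = 0 := rfl
  have hy1 : y 1 = 0 := rfl
  have hyne : y ≠ 0 := by
    intro h
    apply hη
    funext l
    fin_cases l
    · exact congrFun h 2
    · exact congrFun h 3
    · exact congrFun h 4
    · exact congrFun h 5
  refine hAN (cm T yy) hsym η ?_ hrk ?_ V hV
  · -- some entry is not zero
    by_contra hno
    push Not at hno
    have hc : ∀ i j, cm T y i j = 0 := fun i j => by rw [← cm_eval]; exact hno i j
    have e00 : Bf T (E 0) (E 0) y = 0 := by
      have := hc 0 0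
      simpa [cm] using this
    have e01 : Bf T (E 0) (E 1) y = 0 := by
      have := hc 0 1
      simpa [cm] using this
    have e11 : Bf T (E 1) (E 1) y = 0 := by
      have := hc 1 1
      simpa [cm] using this
    have e02 : Bf T (E 0) y y = 0 := by
      have := hc 0 2
      simpa [cm] using this
    have e12 : Bf T (E 1) y y = 0 := by
      have := hc 1 2
      simpa [cm] using this
    have e22 : Bf T y y y = 0 := by
      have := hc 2 2
      simpa [cm] using this
    have hLL : ∀ a b c : Fin 6, a.val < 2 → b.val < 2 → c.val < 2 →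
        Bf T (E a : Fin 6 → ℂ) (E b) (E c) = 0 := by
      intro a b c ha hb hc
      rw [Bf_EEE]
      exact hL a b c ha hb hc
    obtain ⟨i, j, k, hne⟩ := hP y hy0 hy1 hyne
    apply hne
    have s12 := fun a b c => sw12 (R := ℂ) hT a b c
    have s23 := fun a b c => sw23 (R := ℂ) hT a b c
    have e10 : Bf T (E 1) (E 0) y = 0 := by rw [s12, e01]
    fin_cases i <;> fin_cases j <;> fin_cases k <;>
      simp only [Fin.zero_eta, Fin.mk_one, Fin.reduceFinMk, Matrix.cons_val_zero,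
        Matrix.cons_val_one, Matrix.cons_val]
    · exact hLL _ _ _ (by decide) (by decide) (by decide)
    · exact hLL _ _ _ (by decide) (by decide) (by decide)
    · exact e00
    · exact hLL _ _ _ (by decide) (by decide) (by decide)
    · exact hLL _ _ _ (by decide) (by decide) (by decide)
    · exact e01
    · rw [s23]; exact e00
    · rw [s23]; exact e01
    · exact e02
    · exact hLL _ _ _ (by decide) (by decide) (by decide)
    · exact hLL _ _ _ (by decide) (by decide) (by decide)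
    · exact e10
    · exact hLL _ _ _ (by decide) (by decide) (by decide)
    · exact hLL _ _ _ (by decide) (by decide) (by decide)
    · exact e11
    · rw [s23]; exact e10
    · rw [s23]; exact e11
    · exact e12
    · rw [s12, s23]; exact e00
    · rw [s12, s23]; exact e01
    · rw [s12]; exact e02
    · rw [s12, s23]; exact e10
    · rw [s12, s23]; exact e11
    · rw [s12]; exact e12
    · rw [s23, s12]; exact e02
    · rw [s23, s12]; exact e12
    · exact e22
  · -- the derivative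
    intro u hu hAu
    by_contra hno
    push Not at hno
    have hd : ∀ l, Bf T (pt u y) (pt u y) (E (up l)) = 0 := by
      intro l
      have h1 := hno l
      rw [deriv_eq hT] at h1
      have h3 : (3 : ℂ) ≠ 0 := by norm_num
      exact (mul_eq_zero.mp h1).resolve_left h3
    have hA0 := hAu 0
    have hA1 := hAu 1
    simp only [cm_eval, Fin.sum_univ_three] at hA0 hA1
    rw [← hydef] at hA0 hA1
    have c00 : cm T y 0 0 = 3 * Bf T (E 0) (E 0) y := rfl
    have c01 : cm T y 0 1 = 3 * Bf T (E 0) (E 1) y := rfl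
    have c10 : cm T y 1 0 = 3 * Bf T (E 0) (E 1) y := rfl
    have c11 : cm T y 1 1 = 3 * Bf T (E 1) (E 1) y := rfl
    have c02 : cm T y 0 2 = (3 / 2) * Bf T (E 0) y y := rfl
    have c12 : cm T y 1 2 = (3 / 2) * Bf T (E 1) y y := rfl
    rw [c00, c01, c02] at hA0
    rw [c10, c11, c12] at hA1
    have hLL : ∀ a b c : Fin 6, a.val < 2 → b.val < 2 → c.val < 2 →
        Bf T (E a : Fin 6 → ℂ) (E b) (E c) = 0 := by
      intro a b c ha hb hc
      rw [Bf_EEE]
      exact hL a b c ha hb hc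
    have hd0 : Bf T (pt u y) (pt u y) (E 0) = 0 := by
      rw [Bf_pt hT, hLL 0 0 0 (by decide) (by decide) (by decide),
        hLL 0 1 0 (by decide) (by decide) (by decide),
        hLL 1 1 0 (by decide) (by decide) (by decide), sw23 hT (E 0) y (E 0),
        sw23 hT (E 1) y (E 0), sw12 hT (E 1) (E 0) y, sw23 hT y y (E 0), sw12 hT y (E 0) y]
      linear_combination (2 / 3) * u 2 * hA0
    have hd1 : Bf T (pt u y) (pt u y) (E 1) = 0 := by
      rw [Bf_pt hT, hLL 0 0 1 (by decide) (by decide) (by decide),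
        hLL 0 1 1 (by decide) (by decide) (by decide),
        hLL 1 1 1 (by decide) (by decide) (by decide), sw23 hT (E 0) y (E 1),
        sw23 hT (E 1) y (E 1), sw23 hT y y (E 1), sw12 hT y (E 1) y]
      linear_combination (2 / 3) * u 2 * hA1
    have hp : pt u y = 0 := by
      apply hS
      intro i
      rw [← Bf_E, sw12 hT, sw23 hT]
      fin_cases i
      · exact hd0
      · exact hd1
      · exact hd 0
      · exact hd 1
      · exact hd 2
      · exact hd 3
    have hE00 : (E 0 : Fin 6 → ℂ) 0 = 1 := rfl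
    have p0 := congrFun hp 0
    have p1 := congrFun hp 1
    have hu0 : u 0 = 0 := by
      have := p0
      simp only [pt, E, Pi.zero_apply, hy0] at this
      simpa using this
    have hu1 : u 1 = 0 := by
      have := p1
      simp only [pt, E, Pi.zero_apply, hy1] at this
      simpa using this
    have hu2 : u 2 = 0 := by
      by_contra h2
      apply hyne
      funext i
      have := congrFun hp i
      simp only [pt, hu0, hu1, zero_mul, zero_add, Pi.zero_apply] at this
      exact (mul_eq_zero.mp this).resolve_left h2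
    apply hu
    funext i
    fin_cases i
    · exact hu0
    · exact hu1
    · exact hu2

end

end Pool.Agent.V1174.C3.Ani2
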