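import Mathlib
import Pool.Agent.Y201.LI.Stm2
import Pool.Agent.Y201.C3.Glue
import Pool.Agent.Y246.C3.Cb

/-! # Project C3: job ARC -/

set_option autoImplicit false

namespace Pool.Agent.V1174.C3.Arc

open MvPolynomial Pool.Agent.TH314.PD Pool.Agent.Y201.C3 Pool.Agent.Y201.LI

theorem ev_ae {σ : Type} (b : σ → ℂ) (p : MvPolynomial σ ℂ) : eval b p = aeval b p := by
  rw [MvPolynomial.aeval_def, MvPolynomial.eval₂_eq_eval_map]
  simp

theorem evp {σ : Type} (c : σ → Polynomial ℂ) (t : ℂ) (g : MvPolynomial σ ℂ) :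
    (aeval c g).eval t = eval (fun l => (c l).eval t) g := by
  have h1 : (Polynomial.aeval t).comp (aeval c) =
      (aeval (fun l => (c l).eval t) : MvPolynomial σ ℂ →ₐ[ℂ] ℂ) := by
    apply algHom_ext
    intro i
    rw [AlgHom.comp_apply, aeval_X, aeval_X, Polynomial.coe_aeval_eq_eval]
  have h2 := congrArg (fun f => f g) (congrArg DFunLike.coe h1)
  simp only [AlgHom.comp_apply, Polynomial.coe_aeval_eq_eval] at h2
  rw [h2, ev_ae]

theorem smul_ev {σ : Type} {g : MvPolynomial σ ℂ} {m : ℕ} (hg : g.IsHomogeneous m) (a : ℂ)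
    (x : σ → ℂ) : eval (fun i => a * x i) g = a ^ m * eval x g := by
  have h := aeval_smul_form (A := ℂ) hg a x
  rw [ev_ae, ev_ae]
  exact h

theorem lim {T : Fin 6 → Fin 6 → Fin 6 → ℂ} (G : Fin 6 → MvPolynomial (Fin 5) ℂ)
    (hG : ∀ i, (G i).IsHomogeneous 3) (hFG : aeval G (frm T) = 0)
    (c : Fin 5 → Polynomial ℂ) (r : ℕ) (hr : 1 ≤ r) (ψ : Fin 6 → Polynomial ℂ)
    (hψ : ∀ i, aeval c (G i) = Polynomial.X ^ r * ψ i) :
    (∀ i, eval (fun l => (c l).eval 0) (G i) = 0) ∧ ∀ w : Fin 5 → ℂ,
      eval (fun i => (ψ i).eval 0 + ∑ l, w l * eval (fun l => (c l).eval 0) (pderiv l (G i)))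
        (frm T) = 0 := by
  have hr0 : r ≠ 0 := by omega
  refine ⟨?_, ?_⟩
  · intro i
    rw [← evp, hψ, Polynomial.eval_mul, Polynomial.eval_pow, Polynomial.eval_X, zero_pow hr0,
      zero_mul]
  · intro w
    let Ψ : Fin 6 → Polynomial ℂ := fun i => ψ i +
      ∑ l, algebraMap ℂ (Polynomial ℂ) (w l) * aeval c (pderiv l (G i)) +
      Polynomial.X ^ r * ∑ l, c l * algebraMap ℂ (Polynomial ℂ) (eval w (pderiv l (G i))) +
      (Polynomial.X ^ r) ^ 2 * algebraMap ℂ (Polynomial ℂ) (eval w (G i))
    let y : Fin 5 → Polynomial ℂ := fun l =>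
      Polynomial.X ^ r * algebraMap ℂ (Polynomial ℂ) (w l) + c l
    have h1 : ∀ i, aeval y (G i) = Polynomial.X ^ r * Ψ i := by
      intro i
      have h2 := expand_line (G i) (hG i) (Polynomial.X ^ r : Polynomial ℂ) w c
      change aeval y (G i) = _ at h2
      rw [h2, hψ]
      simp only [Ψ]
      ring
    have h3 : aeval (fun i => aeval y (G i)) (frm T) = 0 := by
      have h2 : (aeval y).comp (aeval G) =
          (aeval (fun i => aeval y (G i)) : MvPolynomial (Fin 6) ℂ →ₐ[ℂ] Polynomial ℂ) := by
        apply algHom_ext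
        intro i
        rw [AlgHom.comp_apply, aeval_X, aeval_X]
      rw [← h2, AlgHom.comp_apply, hFG, map_zero]
    have h4 : aeval Ψ (frm T) = 0 := by
      have h5 : (fun i => aeval y (G i)) = fun i => Polynomial.X ^ r * Ψ i := funext h1
      rw [h5, aeval_smul_form (frm_hom T)] at h3
      exact (mul_eq_zero.1 h3).resolve_left
        (pow_ne_zero _ (pow_ne_zero _ Polynomial.X_ne_zero))
    have h5 := congrArg (Polynomial.eval 0) h4
    rw [evp, Polynomial.eval_zero] at h5
    refine Eq.trans ?_ h5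
    congr 2
    funext i
    simp only [Ψ, Polynomial.eval_add, Polynomial.eval_mul, Polynomial.eval_pow,
      Polynomial.eval_X, Polynomial.eval_finsetSum, zero_pow hr0, evp]
    have h6 : ∀ a : ℂ, Polynomial.eval 0 (algebraMap ℂ (Polynomial ℂ) a) = a := fun a => by
      rw [Polynomial.algebraMap_apply, Algebra.algebraMap_self, RingHom.id_apply,
        Polynomial.eval_C]
    simp only [h6]
    ring

theorem fin {T : Fin 6 → Fin 6 → Fin 6 → ℂ} (x : Fin 6 → ℂ) (D : Fin 5 → Fin 6 → ℂ) (g : ℂ)
    (hg : g ≠ 0)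
    (h : ∀ w : Fin 5 → ℂ, eval (fun i => g * x i + ∑ l, w l * D l i) (frm T) = 0) (s : ℂ)
    (w : Fin 5 → ℂ) : eval (fun i => s * x i + ∑ l, w l * D l i) (frm T) = 0 := by
  have h1 : ∀ s : ℂ, s ≠ 0 → eval (fun i => s * x i + ∑ l, w l * D l i) (frm T) = 0 := by
    intro s hs
    have h2 := h (fun l => g / s * w l)
    have h3 : (fun i => g * x i + ∑ l, g / s * w l * D l i) =
        fun i => g / s * (s * x i + ∑ l, w l * D l i) := by
      funext i
      rw [mul_add, Finset.mul_sum]
      congr 1
      · field_simp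
      · exact Finset.sum_congr rfl fun l _ => by ring
    rw [h3, smul_ev (frm_hom T)] at h2
    exact (mul_eq_zero.1 h2).resolve_left (pow_ne_zero _ (div_ne_zero hg hs))
  let φ : Polynomial ℂ := aeval (fun i => Polynomial.X * Polynomial.C (x i) +
    Polynomial.C (∑ l, w l * D l i)) (frm T)
  have h4 : ∀ s : ℂ, φ.eval s = eval (fun i => s * x i + ∑ l, w l * D l i) (frm T) := by
    intro s
    simp only [φ]
    rw [evp]
    congr 2
    funext i
    simp only [Polynomial.eval_add, Polynomial.eval_mul, Polynomial.eval_X, Polynomial.eval_C]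
  have h5 : Polynomial.X * φ = 0 := by
    apply Polynomial.funext
    intro s
    rw [Polynomial.eval_mul, Polynomial.eval_X, h4, Polynomial.eval_zero]
    by_cases hs : s = 0
    · rw [hs, zero_mul]
    · rw [h1 s hs, mul_zero]
  have h6 : φ = 0 := (mul_eq_zero.1 h5).resolve_left Polynomial.X_ne_zero
  rw [← h4, h6, Polynomial.eval_zero]

theorem t_arc : S_ARC := by
  classical
  intro T hT hS G hG hFG m H hH hdiv p q hpq hline hne
  let u : Fin 6 → Polynomial ℂ := fun i => Polynomial.C (p i) + Polynomial.X * Polynomial.C (q i)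
  have hu : aeval u (frm T) = 0 := by
    apply Polynomial.funext
    intro t
    rw [evp, Polynomial.eval_zero]
    have h1 : (fun i => (u i).eval t) = fun i => p i + t * q i := by
      funext i
      simp only [u, Polynomial.eval_add, Polynomial.eval_mul, Polynomial.eval_X,
        Polynomial.eval_C]
    rw [h1]
    have h2 : eval (fun i => p i + t * q i) (frm T) =
        Bf T (fun i => p i + t * q i) (fun i => p i + t * q i) (fun i => p i + t * q i) := by
      rw [ev_ae, aeval_frm]
    rw [h2]
    simp only [Pool.Agent.Y246.C3.Bf_add1, Pool.Agent.Y246.C3.Bf_add2 hT,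
      Pool.Agent.Y246.C3.Bf_add3 hT, Pool.Agent.Y246.C3.Bf_smul1,
      Pool.Agent.Y246.C3.Bf_smul2 hT, Pool.Agent.Y246.C3.Bf_smul3 hT]
    have e000 : Bf T p p p = 0 := hline 0 0 0
    have e001 : Bf T p p q = 0 := hline 0 0 1
    have e010 : Bf T p q p = 0 := hline 0 1 0
    have e011 : Bf T p q q = 0 := hline 0 1 1
    have e100 : Bf T q p p = 0 := hline 1 0 0
    have e101 : Bf T q p q = 0 := hline 1 0 1
    have e110 : Bf T q q p = 0 := hline 1 1 0
    have e111 : Bf T q q q = 0 := hline 1 1 1
    rw [e000, e001, e010, e011, e100, e101, e110, e111]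
    ring
  let h : Fin 5 → Polynomial ℂ := fun l => aeval u (H l)
  have hh : ∀ i, aeval u (aeval H (G i)) = aeval h (G i) := by
    intro i
    have h2 : (aeval u).comp (aeval H) =
        (aeval h : MvPolynomial (Fin 5) ℂ →ₐ[ℂ] Polynomial ℂ) := by
      apply algHom_ext
      intro l
      rw [AlgHom.comp_apply, aeval_X, aeval_X]
    rw [← h2, AlgHom.comp_apply]
  have hcross : ∀ i j, aeval h (G i) * u j = aeval h (G j) * u i := by
    intro i j
    obtain ⟨B, hB⟩ := hdiv i j
    have h1 := congrArg (aeval u) hB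
    rw [map_mul, hu, zero_mul, map_sub, map_mul, map_mul, aeval_X, aeval_X, hh, hh] at h1
    exact sub_eq_zero.1 h1
  obtain ⟨i1, hi1⟩ := hne
  have hi1' : aeval h (G i1) ≠ 0 := by
    intro h0
    apply hi1
    rw [← hh] at h0
    have h1 := congrArg (Polynomial.eval 0) h0
    rw [evp, Polynomial.eval_zero] at h1
    rw [← h1]
    congr 2
    funext i
    simp only [u, Polynomial.eval_add, Polynomial.eval_mul, Polynomial.eval_X, Polynomial.eval_C]
    ring
  -- the greatest common divisor
  obtain ⟨d, hd⟩ := (IsPrincipalIdealRing.principal (Ideal.span (Set.range h))).principal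
  have hdvd : ∀ l, d ∣ h l := by
    intro l
    have h1 : h l ∈ Ideal.span (Set.range h) := Ideal.subset_span ⟨l, rfl⟩
    rw [hd] at h1
    exact Ideal.mem_span_singleton.1 h1
  choose c hc using hdvd
  have hG3 : ∀ i, aeval h (G i) = d ^ 3 * aeval c (G i) := by
    intro i
    have h1 : h = fun l => d * c l := funext hc
    rw [h1, aeval_smul_form (hG i)]
  have hd0 : d ≠ 0 := by
    intro h0
    apply hi1'
    rw [hG3, h0]
    ring
  have hbez : ∃ a : Fin 5 → Polynomial ℂ, ∑ l, a l * c l = 1 := by
    have h1 : d ∈ Ideal.span (Set.range h) := by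
      rw [hd]
      exact Ideal.mem_span_singleton_self d
    rw [Ideal.mem_span_range_iff_exists_fun] at h1
    obtain ⟨a, ha⟩ := h1
    refine ⟨a, ?_⟩
    apply mul_left_cancel₀ hd0
    rw [mul_one, Finset.mul_sum]
    refine Eq.trans ?_ ha
    refine Finset.sum_congr rfl fun l _ => ?_
    rw [hc l]
    ring
  obtain ⟨a, ha⟩ := hbez
  have hcne : ∀ t : ℂ, (fun l => (c l).eval t) ≠ 0 := by
    intro t h0
    have h1 := congrArg (Polynomial.eval t) ha
    rw [Polynomial.eval_finsetSum, Polynomial.eval_one] at h1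
    refine one_ne_zero (α := ℂ) (h1.symm.trans (Finset.sum_eq_zero fun l _ => ?_))
    rw [Polynomial.eval_mul, congrFun h0 l]
    simp
  have hcr2 : ∀ i j, aeval c (G i) * u j = aeval c (G j) * u i := by
    intro i j
    apply mul_left_cancel₀ (pow_ne_zero 3 hd0)
    rw [← mul_assoc, ← mul_assoc, ← hG3, ← hG3, hcross]
  -- a nonzero minor
  have hminor : ∃ i j, p i * q j - p j * q i ≠ 0 := by
    by_contra hcon
    push Not at hcon
    rw [LinearIndependent.pair_iff] at hpq
    have hp0 : p ≠ 0 := by
      intro h0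
      have := (hpq 1 0 (by rw [h0]; simp)).1
      exact one_ne_zero this
    obtain ⟨k, hk⟩ : ∃ k, p k ≠ 0 := by
      by_contra hc'
      push Not at hc'
      exact hp0 (funext hc')
    have := (hpq (q k) (-(p k)) (by
      funext j
      have h1 := hcon k j
      simp only [Pi.add_apply, Pi.smul_apply, smul_eq_mul, Pi.zero_apply]
      linear_combination -h1)).2
    exact hk (neg_eq_zero.1 this)
  obtain ⟨i0, j0, hδ⟩ := hminor
  set δ := p i0 * q j0 - p j0 * q i0 with hδd
  let g : Polynomial ℂ := Polynomial.C δ⁻¹ * (Polynomial.C (q j0) * aeval c (G i0) -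
    Polynomial.C (q i0) * aeval c (G j0))
  have hg : ∀ i, aeval c (G i) = g * u i := by
    intro i
    have e1 : Polynomial.C (q j0) * u i0 - Polynomial.C (q i0) * u j0 = Polynomial.C δ := by
      simp only [u, hδd, map_sub, map_mul]
      ring
    have e2 : Polynomial.C δ⁻¹ * Polynomial.C δ = (1 : Polynomial ℂ) := by
      rw [← map_mul, inv_mul_cancel₀ hδ, map_one]
    calc aeval c (G i) = aeval c (G i) * (Polynomial.C δ⁻¹ * Polynomial.C δ) := by
          rw [e2, mul_one]
      _ = Polynomial.C δ⁻¹ * (Polynomial.C (q j0) * (aeval c (G i) * u i0) -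
          Polynomial.C (q i0) * (aeval c (G i) * u j0)) := by rw [← e1]; ring
      _ = g * u i := by
          rw [hcr2 i i0, hcr2 i j0]
          simp only [g]
          ring
  have hg0 : g ≠ 0 := by
    intro h0
    apply hi1'
    rw [hG3, hg, h0, zero_mul, mul_zero]
  have hx0 : ∀ α β : ℂ, (α ≠ 0 ∨ β ≠ 0) → α • p + β • q ≠ 0 := by
    intro α β hαβ h0
    rw [LinearIndependent.pair_iff] at hpq
    have h1 := hpq α β h0
    rcases hαβ with h2 | h2
    · exact h2 h1.1
    · exact h2 h1.2
  by_cases hdeg : g.degree = 0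
  · -- no finite root
    obtain ⟨g0, hg0'⟩ : ∃ g0 : ℂ, g = Polynomial.C g0 := ⟨_, Polynomial.eq_C_of_degree_eq_zero hdeg⟩
    have hg00 : g0 ≠ 0 := by
      rintro rfl
      exact hg0 (by rw [hg0', map_zero])
    let e : ℕ := Finset.univ.sup fun l => (c l).natDegree
    have hle : ∀ l, (c l).natDegree ≤ e := fun l =>
      Finset.le_sup (f := fun l => (c l).natDegree) (Finset.mem_univ l)
    have hqne : q ≠ 0 := by
      intro h0
      exact hx0 0 1 (Or.inr one_ne_zero) (by rw [h0]; simp)
    have he : 1 ≤ e := by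
      by_contra hcon
      have he0 : e = 0 := by omega
      have h1 : ∀ l, c l = Polynomial.C ((c l).coeff 0) := fun l =>
        Polynomial.eq_C_of_natDegree_le_zero (by rw [← he0]; exact hle l)
      apply hqne
      funext i
      have h2 : aeval c (G i) = Polynomial.C (eval (fun l => (c l).coeff 0) (G i)) := by
        apply Polynomial.funext
        intro t
        rw [evp, Polynomial.eval_C]
        congr 2
        funext l
        conv_lhs => rw [h1 l, Polynomial.eval_C]
      have h3 := hg i
      rw [h2, hg0'] at h3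
      have h4 := congrArg (fun f => Polynomial.coeff f 1) h3
      simp only [u, Polynomial.coeff_C_mul, Polynomial.coeff_add, Polynomial.coeff_C,
        Polynomial.coeff_X_mul] at h4
      simp only [one_ne_zero, if_false, if_true, zero_add] at h4
      exact (mul_eq_zero.1 h4.symm).resolve_left hg00
    obtain ⟨l0, -, hl0⟩ := Finset.exists_mem_eq_sup (Finset.univ : Finset (Fin 5))
      Finset.univ_nonempty fun l => (c l).natDegree
    have hl0' : (c l0).natDegree = e := hl0.symm
    have hrev : ∀ (l : Fin 5) (τ : ℂ), τ ≠ 0 →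
        ((c l).reflect e).eval τ = τ ^ e * (c l).eval τ⁻¹ := by
      intro l τ hτ
      let _ : Invertible (τ⁻¹) := invertibleOfNonzero (inv_ne_zero hτ)
      have h1 := Polynomial.eval₂_reflect_mul_pow (RingHom.id ℂ) (τ⁻¹) e (c l) (hle l)
      have h2 : (⅟(τ⁻¹) : ℂ) = τ := by
        rw [invOf_eq_inv, inv_inv]
      rw [h2] at h1
      change ((c l).reflect e).eval τ * τ⁻¹ ^ e = (c l).eval τ⁻¹ at h1
      rw [← h1, mul_comm (τ ^ e), mul_assoc, ← mul_pow, inv_mul_cancel₀ hτ, one_pow, mul_one]
    have hmain : ∀ i, aeval (fun l => (c l).reflect e) (G i) = Polynomial.X ^ (3 * e - 1) *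
        (Polynomial.C g0 * (Polynomial.C (q i) + Polynomial.X * Polynomial.C (p i))) := by
      intro i
      apply mul_left_cancel₀ (Polynomial.X_ne_zero (R := ℂ))
      apply Polynomial.funext
      intro τ
      by_cases hτ : τ = 0
      · rw [hτ, Polynomial.eval_mul, Polynomial.eval_mul, Polynomial.eval_X, zero_mul, zero_mul]
      · rw [Polynomial.eval_mul, evp]
        have h1 : (fun l => ((c l).reflect e).eval τ) = fun l => τ ^ e * (c l).eval τ⁻¹ :=
          funext fun l => hrev l τ hτ
        rw [h1, smul_ev (hG i), ← evp, hg, hg0']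
        simp only [u, Polynomial.eval_mul, Polynomial.eval_add, Polynomial.eval_pow,
          Polynomial.eval_X, Polynomial.eval_C]
        have h2 : (τ ^ e) ^ 3 = τ ^ (3 * e - 1) * τ := by
          rw [← pow_mul, ← pow_succ]
          congr 1
          omega
        rw [h2]
        field_simp
        ring
    obtain ⟨h1, h2⟩ := lim G hG hFG (fun l => (c l).reflect e) (3 * e - 1) (by omega) _ hmain
    refine ⟨fun l => ((c l).reflect e).eval 0, ?_, h1, q, hqne, ⟨0, 1, by simp⟩, ?_⟩
    · intro h0
      have h3 := congrFun h0 l0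
      simp only [Pi.zero_apply] at h3
      rw [← Polynomial.coeff_zero_eq_eval_zero, Polynomial.coeff_reflect, Polynomial.revAt_le
        (Nat.zero_le e), Nat.sub_zero, ← hl0'] at h3
      have h4 : c l0 = 0 := Polynomial.leadingCoeff_eq_zero.1 h3
      rw [h4, Polynomial.natDegree_zero] at hl0'
      omega
    · refine fin q (fun l i => eval (fun l => ((c l).reflect e).eval 0) (pderiv l (G i))) g0 hg00 ?_
      intro w
      have h3 := h2 w
      simpa using h3
  · obtain ⟨t0, ht0⟩ := IsAlgClosed.exists_root g hdeg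
    obtain ⟨g1, hg1, hg1'⟩ := Polynomial.exists_eq_pow_rootMultiplicity_mul_and_not_dvd g hg0 t0
    set r := g.rootMultiplicity t0 with hr
    have hr1 : 1 ≤ r := (Polynomial.rootMultiplicity_pos hg0).2 ht0
    have hg1t : g1.eval t0 ≠ 0 := by
      intro h0
      exact hg1' (Polynomial.dvd_iff_isRoot.2 h0)
    have hmain : ∀ i, aeval (fun l => (c l).comp (Polynomial.X + Polynomial.C t0)) (G i) =
        Polynomial.X ^ r * (g1.comp (Polynomial.X + Polynomial.C t0) *
          (u i).comp (Polynomial.X + Polynomial.C t0)) := by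
      intro i
      apply Polynomial.funext
      intro τ
      rw [evp]
      have h1 : (fun l => ((c l).comp (Polynomial.X + Polynomial.C t0)).eval τ) =
          fun l => (c l).eval (τ + t0) := by
        funext l
        rw [Polynomial.eval_comp]
        simp
      rw [h1, ← evp, hg, hg1]
      simp only [Polynomial.eval_mul, Polynomial.eval_pow, Polynomial.eval_sub,
        Polynomial.eval_X, Polynomial.eval_C, Polynomial.eval_comp, Polynomial.eval_add]
      ring
    obtain ⟨h1, h2⟩ := lim G hG hFG _ r hr1 _ hmain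
    have e1 : (fun l => ((c l).comp (Polynomial.X + Polynomial.C t0)).eval 0) =
        fun l => (c l).eval t0 := by
      funext l
      rw [Polynomial.eval_comp]
      simp
    rw [e1] at h1
    refine ⟨fun l => (c l).eval t0, hcne t0, h1, p + t0 • q, ?_, ⟨1, t0, by simp⟩, ?_⟩
    · have := hx0 1 t0 (Or.inl one_ne_zero)
      rwa [one_smul] at this
    · refine fin (p + t0 • q) (fun l i => eval (fun l => (c l).eval t0) (pderiv l (G i)))
        (g1.eval t0) hg1t ?_
      intro w
      have h3 := h2 w
      rw [e1] at h3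
      rw [← h3]
      congr 2
      funext i
      simp only [u, Polynomial.eval_mul, Polynomial.eval_comp, Polynomial.eval_add,
        Polynomial.eval_X, Polynomial.eval_C, Pi.add_apply, Pi.smul_apply, smul_eq_mul, zero_add]

end Pool.Agent.V1174.C3.Arc
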