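import Mathlib
import Pool.Agent.H952R2.Sextic.CommonZero

/-! # Points of an irreducible hypersurface outside countably many hypersurfaces -/

set_option autoImplicit false

namespace Pool.Agent.V1174.C3.Avoid

open MvPolynomial

/-- a countably generated field extension of `ℂ` is trivial -/
theorem bij_of_countable {L : Type} [Field L] [Algebra ℂ L]
    (h : Module.rank ℂ L ≤ Cardinal.aleph0) : Function.Bijective (algebraMap ℂ L) := by
  have halg : Algebra.IsAlgebraic ℂ L := by
    by_contra hcon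
    rw [← Algebra.transcendental_iff_not_isAlgebraic] at hcon
    obtain ⟨x, hx⟩ := hcon.transcendental
    have h2 := hx.linearIndependent_sub_inv.cardinal_lift_le_rank
    simp only [Cardinal.lift_id] at h2
    have h3 := h2.trans h
    rw [Cardinal.mk_complex] at h3
    exact absurd h3 (not_le.2 Cardinal.aleph0_lt_continuum)
  exact IsAlgClosed.algebraMap_bijective_of_isIntegral

theorem exists_point {σ : Type} [Finite σ] {F : MvPolynomial σ ℂ} (hF : Prime F) {ι : Type}
    [Countable ι] (G : ι → MvPolynomial σ ℂ) (hG : ∀ i, ¬ F ∣ G i) :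
    ∃ p : σ → ℂ, eval p F = 0 ∧ ∀ i, eval p (G i) ≠ 0 := by
  classical
  have hIp : (Ideal.span {F}).IsPrime := (Ideal.span_singleton_prime hF.ne_zero).2 hF
  let K := FractionRing (MvPolynomial σ ℂ ⧸ Ideal.span {F})
  let π : MvPolynomial σ ℂ →ₐ[ℂ] K :=
    (IsScalarTower.toAlgHom ℂ (MvPolynomial σ ℂ ⧸ Ideal.span {F}) K).comp
      (Ideal.Quotient.mkₐ ℂ (Ideal.span {F}))
  have hπ : ∀ g, π g = 0 ↔ F ∣ g := by
    intro g
    rw [← Ideal.mem_span_singleton, ← Ideal.Quotient.eq_zero_iff_mem]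
    change algebraMap (MvPolynomial σ ℂ ⧸ Ideal.span {F}) K (Ideal.Quotient.mk _ g) = 0 ↔ _
    exact map_eq_zero_iff _ (IsFractionRing.injective (MvPolynomial σ ℂ ⧸ Ideal.span {F}) K)
  let φ : MvPolynomial (σ ⊕ ι) ℂ →ₐ[ℂ] K :=
    aeval (Sum.elim (fun i => π (X i)) (fun i => (π (G i))⁻¹))
  let J : Ideal (MvPolynomial (σ ⊕ ι) ℂ) := RingHom.ker φ
  have hJ : J ≠ ⊤ := RingHom.ker_ne_top _
  obtain ⟨m, hm, hJm⟩ := Ideal.exists_le_maximal J hJ
  let L := MvPolynomial (σ ⊕ ι) ℂ ⧸ m
  let _ : Field L := Ideal.Quotient.field m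
  have hrank : Module.rank ℂ L ≤ Cardinal.aleph0 := by
    refine (rank_quotient_le (R := ℂ) (m.restrictScalars ℂ)).trans ?_
    rw [← (basisMonomials (σ ⊕ ι) ℂ).mk_eq_rank'']
    exact Cardinal.mk_le_aleph0
  have hbij := bij_of_countable hrank
  let q : MvPolynomial (σ ⊕ ι) ℂ →ₐ[ℂ] L := Ideal.Quotient.mkₐ ℂ m
  choose p hp using fun i : σ => hbij.2 (q (X (Sum.inl i)))
  have key : ∀ g : MvPolynomial σ ℂ, algebraMap ℂ L (eval p g) = q (rename Sum.inl g) := by
    intro g
    have h1 : (Algebra.ofId ℂ L).comp (aeval p : MvPolynomial σ ℂ →ₐ[ℂ] ℂ) =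
        q.comp (rename Sum.inl) := by
      apply algHom_ext
      intro i
      rw [AlgHom.comp_apply, AlgHom.comp_apply, aeval_X, rename_X]
      exact hp i
    have h2 := congrArg (fun f => f g) h1
    simpa [MvPolynomial.coe_aeval_eq_eval] using h2
  have key2 : ∀ g : MvPolynomial σ ℂ, φ (rename Sum.inl g) = π g := by
    intro g
    have h1 : φ.comp (rename Sum.inl) = π := by
      apply algHom_ext
      intro i
      rw [AlgHom.comp_apply, rename_X]
      change aeval _ _ = _
      rw [aeval_X, Sum.elim_inl]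
    rw [← h1]
    rfl
  refine ⟨p, ?_, ?_⟩
  · apply hbij.1
    rw [key, map_zero]
    change Ideal.Quotient.mk m _ = 0
    rw [Ideal.Quotient.eq_zero_iff_mem]
    apply hJm
    change φ _ = 0
    rw [key2, hπ]
  · intro i hi
    have h1 : rename Sum.inl (G i) ∈ m := by
      rw [← Ideal.Quotient.eq_zero_iff_mem]
      change q _ = 0
      rw [← key, hi, map_zero]
    have h2 : 1 - rename Sum.inl (G i) * X (Sum.inr i) ∈ m := by
      apply hJm
      change φ _ = 0
      have h3 : π (G i) ≠ 0 := fun h => hG i ((hπ _).1 h)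
      rw [map_sub, map_one, map_mul, key2]
      change 1 - π (G i) * aeval _ (X _) = 0
      rw [aeval_X, Sum.elim_inr, mul_inv_cancel₀ h3, sub_self]
    apply hm.ne_top
    rw [Ideal.eq_top_iff_one]
    have h3 := m.add_mem h2 (m.mul_mem_right (X (Sum.inr i)) h1)
    rwa [sub_add_cancel] at h3

end Pool.Agent.V1174.C3.Avoid
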