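import Mathlib
import Pool.Agent.H952R2.Sextic.CommonZero

/-! # Smooth forms in at least three variables are prime -/

set_option autoImplicit false

namespace Pool.Agent.V1174.C3.Avoid

open MvPolynomial

variable {σ K : Type} [Field K]

theorem coeff_eq_zero_of_deg {P : MvPolynomial σ K} {m : σ →₀ ℕ}
    (h : P.totalDegree < m.degree) : P.coeff m = 0 := by
  by_contra hc
  have h1 := MvPolynomial.le_totalDegree (MvPolynomial.mem_support_iff.2 hc)
  have h2 : (m.sum fun _ e => e) = m.degree := rfl
  omega

theorem top_mul (A B : MvPolynomial σ K) :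
    homogeneousComponent (A.totalDegree + B.totalDegree) (A * B)
      = homogeneousComponent A.totalDegree A * homogeneousComponent B.totalDegree B := by
  classical
  ext m
  rw [coeff_homogeneousComponent]
  by_cases hm : m.degree = A.totalDegree + B.totalDegree
  · rw [if_pos hm, coeff_mul, coeff_mul]
    apply Finset.sum_congr rfl
    rintro ⟨i, j⟩ hij
    rw [Finset.HasAntidiagonal.mem_antidiagonal] at hij
    simp only at hij ⊢
    have hdeg : i.degree + j.degree = A.totalDegree + B.totalDegree := by
      rw [← hm, ← hij, map_add]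
    rw [coeff_homogeneousComponent, coeff_homogeneousComponent]
    by_cases hi : i.degree = A.totalDegree
    · rw [if_pos hi, if_pos (by omega)]
    · rw [if_neg hi, zero_mul]
      rcases Nat.lt_or_gt_of_ne hi with h | h
      · rw [coeff_eq_zero_of_deg (P := B) (by omega), mul_zero]
      · rw [coeff_eq_zero_of_deg (P := A) h, zero_mul]
  · rw [if_neg hm]
    symm
    have h1 := (homogeneousComponent_isHomogeneous A.totalDegree A).mul
      (homogeneousComponent_isHomogeneous B.totalDegree B)
    apply h1.coeff_eq_zero
    exact hm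

theorem isUnit_of_deg {A : MvPolynomial σ K} (hA : A ≠ 0) (h : A.totalDegree = 0) : IsUnit A := by
  rw [totalDegree_eq_zero_iff_eq_C] at h
  rw [h]
  apply IsUnit.map
  apply isUnit_iff_ne_zero.2
  intro h0
  rw [h0, map_zero] at h
  exact hA h

theorem eval_zero_form {a : MvPolynomial σ K} {n : ℕ} (ha : a.IsHomogeneous n) (hn : n ≠ 0) :
    eval 0 a = 0 := by
  rw [MvPolynomial.eval_zero, constantCoeff_eq]
  apply ha.coeff_eq_zero
  rw [map_zero]
  exact hn.symm

theorem prime_of_smooth [IsAlgClosed K] [Fintype σ] (hσ : 3 ≤ Fintype.card σ) {d : ℕ}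
    (hd : 1 ≤ d) {F : MvPolynomial σ K} (hF : F.IsHomogeneous d)
    (hs : ∀ z : σ → K, (∀ i, eval z (pderiv i F) = 0) → z = 0) : Prime F := by
  classical
  have hne : Nonempty σ := Fintype.card_pos_iff.1 (by omega)
  have hF0 : F ≠ 0 := by
    rintro rfl
    have h1 := hs 1 (fun i => by rw [map_zero, map_zero])
    obtain ⟨i⟩ := hne
    exact one_ne_zero (congrFun h1 i)
  rw [← irreducible_iff_prime]
  have hdeg : F.totalDegree = d := hF.totalDegree hF0
  refine ⟨fun hu => ?_, fun A B hAB => ?_⟩
  · obtain ⟨B, hB⟩ := hu.exists_right_inv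
    have h1 : B ≠ 0 := by rintro rfl; simp at hB
    have h2 := totalDegree_mul_of_isDomain hF0 h1
    rw [hB, totalDegree_one] at h2
    omega
  · have hA : A ≠ 0 := by rintro rfl; rw [zero_mul] at hAB; exact hF0 hAB
    have hB : B ≠ 0 := by rintro rfl; rw [mul_zero] at hAB; exact hF0 hAB
    by_cases hA1 : A.totalDegree = 0
    · exact Or.inl (isUnit_of_deg hA hA1)
    by_cases hB1 : B.totalDegree = 0
    · exact Or.inr (isUnit_of_deg hB hB1)
    exfalso
    have h2 : d = A.totalDegree + B.totalDegree := by
      rw [← hdeg, hAB, totalDegree_mul_of_isDomain hA hB]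
    set a := homogeneousComponent A.totalDegree A with ha
    set b := homogeneousComponent B.totalDegree B with hb
    have hFab : F = a * b := by
      rw [ha, hb, ← top_mul, ← hAB, ← h2]
      exact (homogeneousComponent_eq_self hF).symm
    have hah : a.IsHomogeneous A.totalDegree := homogeneousComponent_isHomogeneous _ _
    have hbh : b.IsHomogeneous B.totalDegree := homogeneousComponent_isHomogeneous _ _
    obtain ⟨z, hz, hzab⟩ := Pool.Agent.H952R2.Sextic.exists_common_zero (ι := σ) (κ := Fin 2)
      (by rw [Fintype.card_fin]; omega) ![a, b] (by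
        intro k
        fin_cases k
        · exact eval_zero_form hah hA1
        · exact eval_zero_form hbh hB1)
    have hz1 : eval z a = 0 := hzab 0
    have hz2 : eval z b = 0 := hzab 1
    apply hz
    apply hs
    intro i
    rw [hFab, pderiv_mul, map_add, map_mul, map_mul, hz1, hz2]
    ring

end Pool.Agent.V1174.C3.Avoid
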