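import Mathlib
import Pool.Agent.Y201.LI.Stm2
import Pool.Agent.Y201.C3.Tri
import Pool.Agent.Y201.C3.Coord

/-! # Lines through a generic point meeting a given plane of a cubic fourfold -/

set_option autoImplicit false

namespace Pool.Agent.V1174.C3.Avoid

open MvPolynomial Pool.Agent.Y201.C3 Pool.Agent.Y201.LI Pool.Agent.TH314.PD

section

variable {T : Fin 6 → Fin 6 → Fin 6 → ℂ}

theorem B_add1 (x x' y z : Fin 6 → ℂ) : Bf T (x + x') y z = Bf T x y z + Bf T x' y z :=
  Bg_add1 T x x' y z
theorem B_add2 (x y y' z : Fin 6 → ℂ) : Bf T x (y + y') z = Bf T x y z + Bf T x y' z :=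
  Bg_add2 T x y y' z
theorem B_add3 (x y z z' : Fin 6 → ℂ) : Bf T x y (z + z') = Bf T x y z + Bf T x y z' :=
  Bg_add3 T x y z z'
theorem B_smul1 (c : ℂ) (x y z : Fin 6 → ℂ) : Bf T (c • x) y z = c * Bf T x y z :=
  Bg_smul1 T c x y z
theorem B_smul2 (c : ℂ) (x y z : Fin 6 → ℂ) : Bf T x (c • y) z = c * Bf T x y z :=
  Bg_smul2 T c x y z
theorem B_smul3 (c : ℂ) (x y z : Fin 6 → ℂ) : Bf T x y (c • z) = c * Bf T x y z :=
  Bg_smul3 T c x y z
theorem B12 (hT : SymT T) (x y z : Fin 6 → ℂ) : Bf T x y z = Bf T y x z := Bg_swap12 hT x y z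
theorem B23 (hT : SymT T) (x y z : Fin 6 → ℂ) : Bf T x y z = Bf T x z y := Bg_swap23 hT x y z
theorem B_zero1 (y z : Fin 6 → ℂ) : Bf T 0 y z = 0 := Bg_zero1 T y z
theorem B_zero2 (hT : SymT T) (y z : Fin 6 → ℂ) : Bf T y 0 z = 0 := by
  rw [B12 hT, B_zero1]
theorem B_zero3 (hT : SymT T) (y z : Fin 6 → ℂ) : Bf T y z 0 = 0 := by
  rw [B23 hT, B_zero2 hT]

/-- the form vanishes on the span of an isotropic family -/
theorem B_span (hT : SymT T) {v : Fin 3 → Fin 6 → ℂ} (hv : ∀ i j k, Bf T (v i) (v j) (v k) = 0)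
    {x y z : Fin 6 → ℂ} (hx : x ∈ Submodule.span ℂ (Set.range v))
    (hy : y ∈ Submodule.span ℂ (Set.range v)) (hz : z ∈ Submodule.span ℂ (Set.range v)) :
    Bf T x y z = 0 := by
  have h1 : ∀ z ∈ Submodule.span ℂ (Set.range v), ∀ i j, Bf T z (v i) (v j) = 0 := by
    intro z hz i j
    induction hz using Submodule.span_induction with
    | mem x h => obtain ⟨k, rfl⟩ := h; exact hv _ _ _
    | zero => exact B_zero1 _ _
    | add x y _ _ hx hy => rw [B_add1, hx, hy, add_zero]
    | smul a x _ hx => rw [B_smul1, hx, mul_zero]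
  have h2 : ∀ z ∈ Submodule.span ℂ (Set.range v), ∀ y ∈ Submodule.span ℂ (Set.range v), ∀ j,
      Bf T z y (v j) = 0 := by
    intro z hz y hy j
    induction hy using Submodule.span_induction with
    | mem x h => obtain ⟨k, rfl⟩ := h; exact h1 _ hz _ _
    | zero => exact B_zero2 hT _ _
    | add x y _ _ hx hy => rw [B_add2, hx, hy, add_zero]
    | smul a x _ hx => rw [B_smul2, hx, mul_zero]
  induction hz using Submodule.span_induction with
  | mem x h => obtain ⟨k, rfl⟩ := h; exact h2 _ hx _ hy _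
  | zero => exact B_zero3 hT _ _
  | add x y _ _ hx hy => rw [B_add3, hx, hy, add_zero]
  | smul a x _ hx => rw [B_smul3, hx, mul_zero]

theorem smooth_of (hS : SmoothT T) (z : Fin 6 → ℂ) (h : ∀ y, Bf T y z z = 0) : z = 0 := by
  apply hS
  intro i
  rw [smooth_iff]
  exact h _

/-- lines through a sufficiently general point which meet a given plane -/
theorem plane_bad (hT : SymT T) {p : Fin 6 → ℂ} (hp : Bf T p p p = 0) (hp0 : p 0 ≠ 0)
    {v : Fin 3 → Fin 6 → ℂ} (hv : LinearIndependent ℂ v)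
    (hiso : ∀ i j k, Bf T (v i) (v j) (v k) = 0)
    (hdet : (Matrix.of fun i j : Fin 3 => Bf T p (v i) (v j)).det ≠ 0)
    (hlam : Bf T p p (v 0) ≠ 0) :
    ∃ N : Polynomial ℂ, N ≠ 0 ∧ ∀ t, N.eval t ≠ 0 → ∀ q : Fin 6 → ℂ, q ≠ 0 → q 0 = 0 →
      Bf T p p q = 0 → Bf T p q q = 0 → ∑ i, q i * t ^ (i : ℕ) = 0 →
      ∀ a b : ℂ, a • p + b • q ∈ Submodule.span ℂ (Set.range v) → a = 0 ∧ b = 0 := by
  set lam : Fin 3 → ℂ := fun i => Bf T p p (v i) with hlamd
  set S := Submodule.span ℂ (Set.range v) with hSd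
  have hvS : ∀ i, v i ∈ S := fun i => Submodule.subset_span ⟨i, rfl⟩
  have hl0 : lam 0 ≠ 0 := hlam
  set u1 : Fin 6 → ℂ := v 1 + (-(lam 1 / lam 0)) • v 0 with hu1
  set u2 : Fin 6 → ℂ := v 2 + (-(lam 2 / lam 0)) • v 0 with hu2
  have hu1S : u1 ∈ S := S.add_mem (hvS 1) (S.smul_mem _ (hvS 0))
  have hu2S : u2 ∈ S := S.add_mem (hvS 2) (S.smul_mem _ (hvS 0))
  set Q11 := Bf T p u1 u1 with hQ11
  set Q12 := Bf T p u1 u2 with hQ12
  set Q22 := Bf T p u2 u2 with hQ22
  -- the quadratic form is not zero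
  have hQ : ¬ (Q11 = 0 ∧ Q12 = 0 ∧ Q22 = 0) := by
    rintro ⟨h1, h2, h3⟩
    apply hdet
    rw [hQ11, hu1] at h1
    rw [hQ12, hu1, hu2] at h2
    rw [hQ22, hu2] at h3
    simp only [B_add2, B_add3, B_smul2, B_smul3] at h1 h2 h3
    rw [B23 hT p (v 1) (v 0)] at h1 h2
    rw [B23 hT p (v 2) (v 0)] at h3
    rw [Matrix.det_fin_three]
    simp only [Matrix.of_apply]
    rw [B23 hT p (v 1) (v 0), B23 hT p (v 2) (v 0), B23 hT p (v 2) (v 1)]
    set α := -(lam 1 / lam 0)
    set β := -(lam 2 / lam 0)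
    have e1 : Bf T p (v 1) (v 1) = -(2 * α * Bf T p (v 0) (v 1) + α ^ 2 * Bf T p (v 0) (v 0)) := by
      linear_combination h1
    have e2 : Bf T p (v 1) (v 2) = -(β * Bf T p (v 0) (v 1) + α * Bf T p (v 0) (v 2) +
        α * β * Bf T p (v 0) (v 0)) := by
      linear_combination h2
    have e3 : Bf T p (v 2) (v 2) = -(2 * β * Bf T p (v 0) (v 2) + β ^ 2 * Bf T p (v 0) (v 0)) := by
      linear_combination h3
    rw [e1, e2, e3]
    ring
  let r : (Fin 6 → ℂ) → Fin 6 → ℂ := fun x i => x i - x 0 / p 0 * p i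
  let A : Polynomial ℂ := ∑ i : Fin 6, Polynomial.C (r u1 i) * Polynomial.X ^ (i : ℕ)
  let B : Polynomial ℂ := ∑ i : Fin 6, Polynomial.C (r u2 i) * Polynomial.X ^ (i : ℕ)
  have hcA : ∀ j : Fin 6, A.coeff (j : ℕ) = r u1 j := by
    intro j
    simp only [A, Polynomial.finsetSum_coeff, Polynomial.coeff_C_mul, Polynomial.coeff_X_pow]
    rw [Finset.sum_eq_single j]
    · simp
    · intro b _ hb
      rw [if_neg (fun h => hb (Fin.ext h.symm)), mul_zero]
    · intro h; exact absurd (Finset.mem_univ _) h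
  have hcB : ∀ j : Fin 6, B.coeff (j : ℕ) = r u2 j := by
    intro j
    simp only [B, Polynomial.finsetSum_coeff, Polynomial.coeff_C_mul, Polynomial.coeff_X_pow]
    rw [Finset.sum_eq_single j]
    · simp
    · intro b _ hb
      rw [if_neg (fun h => hb (Fin.ext h.symm)), mul_zero]
    · intro h; exact absurd (Finset.mem_univ _) h
  have hLI : ∀ x y : ℂ, Polynomial.C x * A + Polynomial.C y * B = 0 → x = 0 ∧ y = 0 := by
    intro x y h
    have h1 : ∀ i : Fin 6, x * r u1 i + y * r u2 i = 0 := by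
      intro i
      have h2 := congrArg (fun f => Polynomial.coeff f (i : ℕ)) h
      simp only [Polynomial.coeff_add, Polynomial.coeff_C_mul, hcA, hcB,
        Polynomial.coeff_zero] at h2
      exact h2
    set s : ℂ := (x * u1 0 + y * u2 0) / p 0 with hs
    have h2 : x • u1 + y • u2 = s • p := by
      funext i
      have h3 := h1 i
      simp only [r] at h3
      simp only [Pi.add_apply, Pi.smul_apply, smul_eq_mul, hs]
      field_simp
      field_simp at h3
      linear_combination h3
    have hmem : s • p ∈ S := by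
      rw [← h2]
      exact S.add_mem (S.smul_mem _ hu1S) (S.smul_mem _ hu2S)
    have h3 := B_span hT hiso hmem hmem (hvS 0)
    rw [B_smul1, B_smul2] at h3
    have hs0 : s = 0 := by
      rcases mul_eq_zero.1 h3 with h | h
      · exact h
      · exact (mul_eq_zero.1 h).resolve_right hlam
    rw [hs0, zero_smul] at h2
    have h4 : ∑ i, (![-(x * (lam 1 / lam 0) + y * (lam 2 / lam 0)), x, y] : Fin 3 → ℂ) i • v i
        = 0 := by
      rw [Fin.sum_univ_three]
      change -(x * (lam 1 / lam 0) + y * (lam 2 / lam 0)) • v 0 + x • v 1 + y • v 2 = 0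
      rw [← h2, hu1, hu2]
      module
    have h5 := Fintype.linearIndependent_iff.1 hv _ h4
    exact ⟨h5 1, h5 2⟩
  have hA0 : A ≠ 0 := by
    intro h
    have h1 := hLI 1 0 (by rw [h]; simp)
    exact one_ne_zero h1.1
  let N : Polynomial ℂ := Polynomial.C Q11 * B ^ 2 - Polynomial.C (2 * Q12) * A * B +
    Polynomial.C Q22 * A ^ 2
  refine ⟨N, ?_, ?_⟩
  · by_cases h0 : Q11 = 0
    · have h1 : N = A * (Polynomial.C Q22 * A + Polynomial.C (-(2 * Q12)) * B) := by
        simp only [N, h0, map_zero, map_neg]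
        ring
      rw [h1]
      refine mul_ne_zero hA0 fun h => ?_
      have h2 := hLI _ _ h
      refine hQ ⟨h0, ?_, h2.1⟩
      have h3 := h2.2
      rw [neg_eq_zero] at h3
      exact (mul_eq_zero.1 h3).resolve_left two_ne_zero
    · obtain ⟨d, hd⟩ := IsAlgClosed.exists_pow_nat_eq (Q12 ^ 2 - Q11 * Q22) (n := 2) (by norm_num)
      have h1 : Polynomial.C Q11 * N = (Polynomial.C (-(Q12 + d)) * A + Polynomial.C Q11 * B) *
          (Polynomial.C (-(Q12 - d)) * A + Polynomial.C Q11 * B) := by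
        have h2 : (Polynomial.C d : Polynomial ℂ) ^ 2 = Polynomial.C Q12 ^ 2 -
            Polynomial.C Q11 * Polynomial.C Q22 := by
          rw [← Polynomial.C_pow, hd, Polynomial.C_sub, Polynomial.C_pow, Polynomial.C_mul]
        simp only [N, map_neg, map_add, map_sub, map_mul, map_ofNat]
        linear_combination A ^ 2 * h2
      intro hN
      rw [hN, mul_zero] at h1
      rcases mul_eq_zero.1 h1.symm with h | h
      · exact h0 (hLI _ _ h).2
      · exact h0 (hLI _ _ h).2
  · intro t ht q hq hq0 hppq hpqq hqt a b hab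
    by_cases hb : b = 0
    · refine ⟨?_, hb⟩
      rw [hb, zero_smul, add_zero] at hab
      have h3 := B_span hT hiso hab hab (hvS 0)
      rw [B_smul1, B_smul2] at h3
      rcases mul_eq_zero.1 h3 with h | h
      · exact h
      · exact (mul_eq_zero.1 h).resolve_right hlam
    · exfalso
      obtain ⟨c, hc⟩ := (Submodule.mem_span_range_iff_exists_fun ℂ).1 hab
      rw [Fin.sum_univ_three] at hc
      have h1 : c 0 * lam 0 + c 1 * lam 1 + c 2 * lam 2 = 0 := by
        have h2 : Bf T p p (a • p + b • q) = 0 := by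
          rw [B_add3, B_smul3, B_smul3, hp, hppq]; ring
        rw [← hc] at h2
        simp only [B_add3, B_smul3] at h2
        exact h2
      have h2 : c 0 = -(c 1 * (lam 1 / lam 0) + c 2 * (lam 2 / lam 0)) := by
        field_simp
        linear_combination h1
      have h3 : a • p + b • q = c 1 • u1 + c 2 • u2 := by
        rw [← hc, h2, hu1, hu2]
        module
      have h4 : c 1 ^ 2 * Q11 + 2 * c 1 * c 2 * Q12 + c 2 ^ 2 * Q22 = 0 := by
        have h5 : Bf T p (a • p + b • q) (a • p + b • q) = 0 := by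
          simp only [B_add3, B_smul3, B_add2, B_smul2]
          rw [B23 hT p q p, hp, hppq, hpqq]; ring
        rw [h3] at h5
        simp only [B_add3, B_smul3, B_add2, B_smul2] at h5
        rw [B23 hT p u2 u1] at h5
        linear_combination h5
      have h5 : c 1 * A.eval t + c 2 * B.eval t = 0 := by
        have h6 : ∀ i, c 1 * r u1 i + c 2 * r u2 i = b * q i := by
          intro i
          have h7 := congrFun h3 i
          have h8 := congrFun h3 0
          simp only [Pi.add_apply, Pi.smul_apply, smul_eq_mul, hq0] at h7 h8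
          simp only [r]
          have h9 : a = (c 1 * u1 0 + c 2 * u2 0) / p 0 := by
            field_simp
            linear_combination h8
          have h10 : c 1 * (u1 i - u1 0 / p 0 * p i) + c 2 * (u2 i - u2 0 / p 0 * p i) =
              (c 1 * u1 i + c 2 * u2 i) - (c 1 * u1 0 + c 2 * u2 0) / p 0 * p i := by
            ring
          rw [h10, ← h9]
          linear_combination -h7
        have hA : A.eval t = ∑ i : Fin 6, r u1 i * t ^ (i : ℕ) := by
          simp only [A, Polynomial.eval_finsetSum, Polynomial.eval_mul, Polynomial.eval_C,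
            Polynomial.eval_pow, Polynomial.eval_X]
        have hB : B.eval t = ∑ i : Fin 6, r u2 i * t ^ (i : ℕ) := by
          simp only [B, Polynomial.eval_finsetSum, Polynomial.eval_mul, Polynomial.eval_C,
            Polynomial.eval_pow, Polynomial.eval_X]
        rw [hA, hB, Finset.mul_sum, Finset.mul_sum, ← Finset.sum_add_distrib]
        have h7 : ∀ i : Fin 6, c 1 * (r u1 i * t ^ (i : ℕ)) + c 2 * (r u2 i * t ^ (i : ℕ)) =
            b * (q i * t ^ (i : ℕ)) := by
          intro i
          linear_combination t ^ (i : ℕ) * h6 i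
        rw [Finset.sum_congr rfl fun i _ => h7 i, ← Finset.mul_sum, hqt, mul_zero]
      have hN : N.eval t = Q11 * (B.eval t) ^ 2 - 2 * Q12 * A.eval t * B.eval t +
          Q22 * (A.eval t) ^ 2 := by
        simp only [N, Polynomial.eval_add, Polynomial.eval_sub, Polynomial.eval_mul,
          Polynomial.eval_C, Polynomial.eval_pow]
      have h6 : c 1 ^ 2 * N.eval t = 0 := by
        rw [hN]
        linear_combination (B.eval t) ^ 2 * h4 + (c 1 * Q22 * A.eval t - c 2 * Q22 * B.eval t -
          2 * c 1 * Q12 * B.eval t) * h5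
      have h7 : c 2 ^ 2 * N.eval t = 0 := by
        rw [hN]
        linear_combination (A.eval t) ^ 2 * h4 + (c 2 * Q11 * B.eval t - c 1 * Q11 * A.eval t -
          2 * c 2 * Q12 * A.eval t) * h5
      have hc1 : c 1 = 0 := by
        have := (mul_eq_zero.1 h6).resolve_right ht
        exact pow_eq_zero_iff (two_ne_zero) |>.1 this
      have hc2 : c 2 = 0 := by
        have := (mul_eq_zero.1 h7).resolve_right ht
        exact pow_eq_zero_iff (two_ne_zero) |>.1 this
      rw [hc1, hc2, zero_smul, zero_smul, add_zero] at h3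
      have h8 := congrFun h3 0
      simp only [Pi.add_apply, Pi.smul_apply, smul_eq_mul, hq0, Pi.zero_apply, mul_zero,
        add_zero] at h8
      have ha : a = 0 := (mul_eq_zero.1 h8).resolve_right hp0
      rw [ha, zero_smul, zero_add] at h3
      exact hq ((smul_eq_zero.1 h3).resolve_left hb)

end

end Pool.Agent.V1174.C3.Avoid
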