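import Mathlib
import Pool.Agent.Y201.LI.Stm2
import Pool.Agent.Y201.C3.Tri
import Pool.Agent.Y201.C3.Coord
import Pool.Agent.H952R2.Sextic.CommonZero
import Pool.Agent.H641.PCF.P_countable_subfield
import Pool.Agent.V1174.C3.AvoidGen
import Pool.Agent.V1174.C3.AvoidIrr
import Pool.Agent.V1174.C3.AvoidPlane

/-! # Job AVOID: a line of a smooth cubic fourfold through a point outside a given hypersurface
which meets no plane of the fourfold -/

set_option autoImplicit false

namespace Pool.Agent.V1174.C3.Avoid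

open MvPolynomial Pool.Agent.Y201.C3 Pool.Agent.Y201.LI Pool.Agent.TH314.PD

section

variable {T : Fin 6 → Fin 6 → Fin 6 → ℂ}

theorem frmH (T : Fin 6 → Fin 6 → Fin 6 → ℂ) (x y z : Fin 6 → MvPolynomial (Fin 6) ℂ)
    {a b c : ℕ} (hx : ∀ i, (x i).IsHomogeneous a) (hy : ∀ i, (y i).IsHomogeneous b)
    (hz : ∀ i, (z i).IsHomogeneous c) : (Bf T x y z).IsHomogeneous (a + b + c) := by
  unfold Bf
  refine IsHomogeneous.sum _ _ _ fun i _ => IsHomogeneous.sum _ _ _ fun j _ =>
    IsHomogeneous.sum _ _ _ fun k _ => ?_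
  have h := (((isHomogeneous_C (Fin 6) (T i j k)).mul (hx i)).mul (hy j)).mul (hz k)
  rw [zero_add] at h
  exact h

theorem ev {σ : Type} (p : σ → ℂ) (g : MvPolynomial σ ℂ) : aeval p g = eval p g := by
  rw [← coe_aeval_eq_eval]
  rfl

theorem eval_Bf (T : Fin 6 → Fin 6 → Fin 6 → ℂ) (x y z : Fin 6 → MvPolynomial (Fin 6) ℂ)
    (p : Fin 6 → ℂ) : eval p (Bf T x y z) =
      Bf T (fun i => eval p (x i)) (fun i => eval p (y i)) (fun i => eval p (z i)) := by
  have h := map_Bg (aeval p : MvPolynomial (Fin 6) ℂ →ₐ[ℂ] ℂ) T x y z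
  simp only [ev] at h
  exact h

/-- constant vectors -/
noncomputable def cst (v : Fin 6 → ℂ) : Fin 6 → MvPolynomial (Fin 6) ℂ := fun a => C (v a)

theorem eval_cst (v p : Fin 6 → ℂ) : (fun i => eval p (cst v i)) = v := by
  funext i
  exact eval_C _

theorem eval_X' (p : Fin 6 → ℂ) : (fun i => eval p (X i : MvPolynomial (Fin 6) ℂ)) = p := by
  funext i
  exact eval_X _

theorem prime_frm (hT : SymT T) (hS : SmoothT T) : Prime (frm T) := by
  refine prime_of_smooth (d := 3) (by norm_num) (by norm_num) ?_ ?_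
  · exact frmH T X X X (a := 1) (b := 1) (c := 1) (isHomogeneous_X ℂ) (isHomogeneous_X ℂ)
      (isHomogeneous_X ℂ)
  · intro z hz
    apply hS
    intro i
    rw [smooth_iff]
    have h1 := pderiv_frmG hT i z
    have h2 : aeval z (pderiv i (frm T)) = (0 : ℂ) := by
      rw [ev]
      exact hz i
    change aeval z (pderiv i (frm T)) = _ at h1
    rw [h2] at h1
    exact (mul_eq_zero.1 h1.symm).resolve_left (by norm_num)

theorem frm_deg (hT : SymT T) (hS : SmoothT T) : (frm T).totalDegree = 3 := by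
  have h := frmH T X X X (a := 1) (b := 1) (c := 1) (isHomogeneous_X ℂ) (isHomogeneous_X ℂ)
      (isHomogeneous_X ℂ)
  exact IsHomogeneous.totalDegree h (prime_frm hT hS).ne_zero

theorem not_dvd (hT : SymT T) (hS : SmoothT T) {G : MvPolynomial (Fin 6) ℂ} (hG : G ≠ 0)
    (hd : G.totalDegree < 3) : ¬ frm T ∣ G := by
  rintro ⟨Q, rfl⟩
  have hQ : Q ≠ 0 := by rintro rfl; simp at hG
  rw [totalDegree_mul_of_isDomain (prime_frm hT hS).ne_zero hQ, frm_deg hT hS] at hd
  omega

/-- the determinant of the net of conics of a plane -/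
noncomputable def dt (T : Fin 6 → Fin 6 → Fin 6 → ℂ) (v : Fin 3 → Fin 6 → ℂ) :
    MvPolynomial (Fin 6) ℂ :=
  (Matrix.of fun i j : Fin 3 => Bf T X (cst (v i)) (cst (v j))).det

theorem eval_dt (v : Fin 3 → Fin 6 → ℂ) (p : Fin 6 → ℂ) :
    eval p (dt T v) = (Matrix.of fun i j : Fin 3 => Bf T p (v i) (v j)).det := by
  unfold dt
  rw [Matrix.det_fin_three, Matrix.det_fin_three]
  simp only [Matrix.of_apply, map_add, map_sub, map_mul, eval_Bf, eval_cst, eval_X']

theorem dt_hom (v : Fin 3 → Fin 6 → ℂ) : (dt T v).IsHomogeneous 3 := by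
  have h : ∀ i j, (Bf T (X : Fin 6 → MvPolynomial (Fin 6) ℂ) (cst (v i))
      (cst (v j))).IsHomogeneous 1 := fun i j =>
    frmH T _ _ _ (a := 1) (b := 0) (c := 0) (isHomogeneous_X ℂ) (fun a => isHomogeneous_C _ _)
      (fun a => isHomogeneous_C _ _)
  unfold dt
  rw [Matrix.det_fin_three]
  simp only [Matrix.of_apply]
  have h3 : ∀ i j k l m n, (Bf T (X : Fin 6 → MvPolynomial (Fin 6) ℂ) (cst (v i)) (cst (v j)) *
      Bf T X (cst (v k)) (cst (v l)) * Bf T X (cst (v m)) (cst (v n))).IsHomogeneous 3 :=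
    fun i j k l m n => ((h i j).mul (h k l)).mul (h m n)
  exact (((((h3 _ _ _ _ _ _).sub (h3 _ _ _ _ _ _)).sub (h3 _ _ _ _ _ _)).add
    (h3 _ _ _ _ _ _)).add (h3 _ _ _ _ _ _)).sub (h3 _ _ _ _ _ _)

theorem dt_not_dvd (hNET : S_NET) (hT : SymT T) (hS : SmoothT T) {v : Fin 3 → Fin 6 → ℂ}
    (hv : LinearIndependent ℂ v) (hiso : ∀ i j k, Bf T (v i) (v j) (v k) = 0) :
    ¬ frm T ∣ dt T v := by
  rintro ⟨Q, hQ⟩
  obtain ⟨x, hx⟩ := hNET T hT hS v hv hiso
  rw [← eval_dt] at hx
  have hD0 : dt T v ≠ 0 := by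
    intro h
    rw [h, map_zero] at hx
    exact hx rfl
  have hQ0 : Q ≠ 0 := by
    rintro rfl
    rw [mul_zero] at hQ
    exact hD0 hQ
  have h1 := (dt_hom (T := T) v).totalDegree hD0
  rw [hQ, totalDegree_mul_of_isDomain (prime_frm hT hS).ne_zero hQ0, frm_deg hT hS] at h1
  have h2 : Q.totalDegree = 0 := by omega
  rw [totalDegree_eq_zero_iff_eq_C] at h2
  set c : ℂ := coeff 0 Q with hc
  have hc0 : c ≠ 0 := by
    intro h
    rw [h, map_zero] at h2
    exact hQ0 h2
  have h3 : ∀ y : Fin 6 → ℂ, (Matrix.of fun i j : Fin 3 => Bf T y (v i) (v j)).det =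
      Bf T y y y * c := by
    intro y
    rw [← eval_dt, hQ, h2, map_mul, eval_C]
    congr 1
    unfold frm
    rw [eval_Bf, eval_X']
  have h4 : ∀ y : Fin 6 → ℂ, Bf T (v 0) (v 0) y = 0 := by
    intro y
    set D := (Matrix.of fun i j : Fin 3 => Bf T y (v i) (v j)).det with hD
    have h5 : ∀ s : ℂ, s ^ 3 * D = (3 * s * Bf T (v 0) (v 0) y + 3 * s ^ 2 * Bf T (v 0) y y +
        s ^ 3 * Bf T y y y) * c := by
      intro s
      have h6 := h3 (v 0 + s • y)
      have h7 : (Matrix.of fun i j : Fin 3 => Bf T (v 0 + s • y) (v i) (v j)).det = s ^ 3 * D := by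
        rw [hD, Matrix.det_fin_three, Matrix.det_fin_three]
        simp only [Matrix.of_apply, B_add1, B_smul1, hiso, zero_add]
        ring
      rw [h7] at h6
      rw [h6]
      simp only [B_add1, B_add2, B_add3, B_smul1, B_smul2, B_smul3, hiso]
      rw [B23 hT (v 0) y (v 0), B12 hT y (v 0) (v 0), B23 hT (v 0) y (v 0), B12 hT y (v 0) y,
        B23 hT y y (v 0), B12 hT y (v 0) y]
      ring
    have e1 := h5 1
    have e2 := h5 (-1)
    have e3 := h5 2
    have h8 : Bf T (v 0) (v 0) y * c = 0 := by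
      linear_combination (1 / 18 : ℂ) * e3 - (1 / 3 : ℂ) * e1 + (1 / 9 : ℂ) * e2
    exact (mul_eq_zero.1 h8).resolve_right hc0
  have h5 : v 0 = 0 := smooth_of hS _ fun y => by
    rw [B12 hT, B23 hT]
    exact h4 y
  exact hv.ne_zero 0 h5

theorem isAlgClosed_of {k : Subfield ℂ} (h : ∀ z : ℂ, IsIntegral k z → z ∈ k) : IsAlgClosed k := by
  refine IsAlgClosed.of_exists_root _ fun p hp hirr => ?_
  have hdeg : (p.map (algebraMap k ℂ)).degree ≠ 0 := by
    rw [Polynomial.degree_map]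
    exact (Polynomial.degree_pos_of_irreducible hirr).ne'
  obtain ⟨z, hz⟩ := IsAlgClosed.exists_root (p.map (algebraMap k ℂ)) hdeg
  rw [Polynomial.IsRoot, Polynomial.eval_map] at hz
  have hzi : IsIntegral k z := ⟨p, hp, hz⟩
  refine ⟨⟨z, h z hzi⟩, ?_⟩
  apply (algebraMap k ℂ).injective
  rw [map_zero, ← hz]
  exact (Polynomial.hom_eval₂ p (RingHom.id k) (algebraMap k ℂ) ⟨z, h z hzi⟩)

theorem lam_not_dvd (hT : SymT T) (hS : SmoothT T) {v : Fin 6 → ℂ} (hv : v ≠ 0) :
    ¬ frm T ∣ Bf T X X (cst v) := by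
  have hh : (Bf T (X : Fin 6 → MvPolynomial (Fin 6) ℂ) X (cst v)).IsHomogeneous 2 :=
    frmH T _ _ _ (a := 1) (b := 1) (c := 0) (isHomogeneous_X ℂ) (isHomogeneous_X ℂ)
      (fun a => isHomogeneous_C _ _)
  apply not_dvd hT hS
  · intro h0
    apply hv
    have h1 : ∀ x : Fin 6 → ℂ, Bf T x x v = 0 := by
      intro x
      have h2 := congrArg (eval x) h0
      rw [eval_Bf, eval_cst, eval_X', map_zero] at h2
      exact h2
    refine smooth_of hS _ fun y => ?_
    have h2 := h1 (v + y)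
    rw [B_add1, B_add2, B_add2, h1, h1, B12 hT v y v] at h2
    linear_combination (1 / 2 : ℂ) * h2
  · have := hh.totalDegree_le
    omega

theorem t_avoid (hNET : S_NET) (hRIG : S_RIG) : S_AVOID := by
  classical
  intro T hT hS e W _ hW
  obtain ⟨k, hkc, hkS, hkint⟩ := PCFib.countable_subfield
    (Set.range fun m : Fin 6 × Fin 6 × Fin 6 => T m.1 m.2.1 m.2.2) (Set.countable_range _)
  have hkT : ∀ i j l, T i j l ∈ k := fun i j l => hkS ⟨(i, j, l), rfl⟩
  have hkac : IsAlgClosed k := isAlgClosed_of hkint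
  have : Countable k := hkc.to_subtype
  let P : Type := {v : Fin 3 → Fin 6 → k //
    LinearIndependent ℂ (fun i a => (v i a : ℂ) : Fin 3 → Fin 6 → ℂ) ∧
    ∀ i j l, Bf T (fun a => (v i a : ℂ)) (fun a => (v j a : ℂ)) (fun a => (v l a : ℂ)) = 0}
  have hPc : Countable P := inferInstance
  let pv : P → Fin 3 → Fin 6 → ℂ := fun w i a => (w.1 i a : ℂ)
  have hpv : ∀ w, LinearIndependent ℂ (pv w) := fun w => w.2.1
  have hpi : ∀ w i j l, Bf T (pv w i) (pv w j) (pv w l) = 0 := fun w => w.2.2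
  let G : Fin 2 ⊕ (P ⊕ P) → MvPolynomial (Fin 6) ℂ := Sum.elim ![W, X 0]
    (Sum.elim (fun w => dt T (pv w)) (fun w => Bf T X X (cst (pv w 0))))
  have hG : ∀ i, ¬ frm T ∣ G i := by
    rintro (i | w | w)
    · fin_cases i
      · exact hW
      · change ¬ frm T ∣ (X 0 : MvPolynomial (Fin 6) ℂ)
        exact not_dvd hT hS (X_ne_zero 0) (by rw [totalDegree_X]; norm_num)
    · exact dt_not_dvd hNET hT hS (hpv w) (hpi w)
    · exact lam_not_dvd hT hS ((hpv w).ne_zero 0)
  obtain ⟨p, hpF, hpG⟩ := exists_point (prime_frm hT hS) G hG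
  have hp : Bf T p p p = 0 := by
    have h := hpF
    unfold frm at h
    rw [eval_Bf, eval_X'] at h
    exact h
  have hpW : eval p W ≠ 0 := hpG (Sum.inl 0)
  have hp0 : p 0 ≠ 0 := by
    have h := hpG (Sum.inl 1)
    change eval p (X 0) ≠ 0 at h
    rwa [eval_X] at h
  have hdet : ∀ w, (Matrix.of fun i j : Fin 3 => Bf T p (pv w i) (pv w j)).det ≠ 0 := by
    intro w
    rw [← eval_dt]
    exact hpG (Sum.inr (Sum.inl w))
  have hlam : ∀ w, Bf T p p (pv w 0) ≠ 0 := by
    intro w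
    have h := hpG (Sum.inr (Sum.inr w))
    change eval p (Bf T X X (cst (pv w 0))) ≠ 0 at h
    rwa [eval_Bf, eval_X', eval_cst] at h
  choose N hN hNp using fun w => plane_bad hT hp hp0 (hpv w) (hpi w) (hdet w) (hlam w)
  obtain ⟨t, ht⟩ : ∃ t : ℂ, ∀ w, (N w).eval t ≠ 0 := by
    by_contra hcon
    push Not at hcon
    apply not_countable_complex
    have h1 : (Set.univ : Set ℂ) ⊆ ⋃ w, {t : ℂ | (N w).eval t = 0} := by
      intro t _
      obtain ⟨w, hw⟩ := hcon t
      exact Set.mem_iUnion.2 ⟨w, hw⟩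
    refine Set.Countable.mono h1 (Set.countable_iUnion fun w => ?_)
    refine ((N w).roots.toFinset.finite_toSet.subset ?_).countable
    intro t ht
    simp only [Finset.mem_coe, Multiset.mem_toFinset]
    exact (Polynomial.mem_roots (hN w)).2 ht
  have hX0 : (fun i => eval (0 : Fin 6 → ℂ) (X i : MvPolynomial (Fin 6) ℂ)) = 0 := eval_X' 0
  obtain ⟨q, hq, hqf⟩ := Pool.Agent.H952R2.Sextic.exists_common_zero (ι := Fin 6) (κ := Fin 5)
    (by simp) (![X 0, ∑ i : Fin 6, X i * C (t ^ (i : ℕ)), Bf T (cst p) (cst p) X,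
      Bf T (cst p) X X, frm T] : Fin 5 → MvPolynomial (Fin 6) ℂ) (by
      intro j
      fin_cases j
      · change eval 0 (X 0) = 0
        rw [eval_X]
        rfl
      · change eval 0 (∑ i : Fin 6, X i * C (t ^ (i : ℕ))) = 0
        rw [map_sum]
        refine Finset.sum_eq_zero fun i _ => ?_
        rw [map_mul, eval_X]
        simp
      · change eval 0 (Bf T (cst p) (cst p) X) = 0
        rw [eval_Bf, hX0, B_zero3 hT]
      · change eval 0 (Bf T (cst p) X X) = 0
        rw [eval_Bf, hX0, B_zero3 hT]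
      · change eval 0 (Bf T X X X) = 0
        rw [eval_Bf, hX0, B_zero3 hT])
  have hq0 : q 0 = 0 := by
    have h := hqf 0
    change eval q (X 0) = 0 at h
    rwa [eval_X] at h
  have hqt : ∑ i, q i * t ^ (i : ℕ) = 0 := by
    have h := hqf 1
    change eval q (∑ i : Fin 6, X i * C (t ^ (i : ℕ))) = 0 at h
    rw [map_sum] at h
    rw [← h]
    exact Finset.sum_congr rfl fun i _ => by rw [map_mul, eval_X, eval_C]
  have hppq : Bf T p p q = 0 := by
    have h := hqf 2
    change eval q (Bf T (cst p) (cst p) X) = 0 at h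
    rwa [eval_Bf, eval_cst, eval_X'] at h
  have hpqq : Bf T p q q = 0 := by
    have h := hqf 3
    change eval q (Bf T (cst p) X X) = 0 at h
    rwa [eval_Bf, eval_cst, eval_X'] at h
  have hqqq : Bf T q q q = 0 := by
    have h := hqf 4
    change eval q (Bf T X X X) = 0 at h
    rwa [eval_Bf, eval_X'] at h
  refine ⟨p, q, ?_, ?_, hpW, ?_⟩
  · rw [LinearIndependent.pair_iff]
    intro a b hab
    have h1 := congrFun hab 0
    simp only [Pi.add_apply, Pi.smul_apply, smul_eq_mul, hq0, mul_zero, add_zero,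
      Pi.zero_apply] at h1
    have ha : a = 0 := (mul_eq_zero.1 h1).resolve_right hp0
    refine ⟨ha, ?_⟩
    rw [ha, zero_smul, zero_add] at hab
    exact (smul_eq_zero.1 hab).resolve_right hq
  · intro i j l
    fin_cases i <;> fin_cases j <;> fin_cases l
    · exact hp
    · exact hppq
    · exact (B23 hT p q p).trans hppq
    · exact hpqq
    · exact (B12 hT q p p).trans ((B23 hT p q p).trans hppq)
    · exact (B12 hT q p q).trans hpqq
    · exact (B23 hT q q p).trans ((B12 hT q p q).trans hpqq)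
    · exact hqqq
  · intro v hv hiso a b hab
    obtain ⟨v', hv'k, hv'li, hspan⟩ := hRIG k hkac T hT hS hkT v hv hiso
    have hmem : ∀ i, v' i ∈ Submodule.span ℂ (Set.range v) := by
      intro i
      rw [← hspan]
      exact Submodule.subset_span ⟨i, rfl⟩
    let w : P := ⟨fun i a => ⟨v' i a, hv'k i a⟩, hv'li, fun i j l =>
      B_span hT hiso (hmem i) (hmem j) (hmem l)⟩
    refine hNp w t (ht w) q hq hq0 hppq hpqq hqt a b ?_
    change _ ∈ Submodule.span ℂ (Set.range v')
    rw [hspan]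
    exact hab

end

end Pool.Agent.V1174.C3.Avoid
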