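import Pool.Agent.Y201.C3.Stm
import Pool.Agent.V1148.Con6

/-! # Job CONIC of project C3: self-maps of an anisotropic conic have odd degree -/

set_option autoImplicit false

namespace Pool.Agent.V1174.C3.Conic

theorem t_conic : Pool.Agent.Y201.C3.S_CONIC := by
  intro K M _ _ _ _ A hA h hM v hv hgen
  exact Pool.Agent.V1148.Con.t_conic K M A hA h hM v hv hgen

end Pool.Agent.V1174.C3.Conic
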