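import Mathlib
import Pool.Agent.Y201.C3.Stm
import Pool.Agent.H952R2.Sextic.CommonZero

/-! # Project C3: job ETA -/

set_option autoImplicit false

namespace Pool.Agent.V1174.C3.Eta

open MvPolynomial Pool.Agent.Y201.C3

/-- the six pairs `i ≤ j` -/
def pr : Fin 6 → Fin 3 × Fin 3 := ![(0, 0), (0, 1), (0, 2), (1, 1), (1, 2), (2, 2)]

theorem t_eta : S_ETA := by
  intro A hA h0
  let f : Fin 6 → MvPolynomial (Fin 4 ⊕ Fin 3) ℂ := fun k =>
    rename Sum.inl (A (pr k).1 (pr k).2) - X (Sum.inr (pr k).1) * X (Sum.inr (pr k).2)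
  obtain ⟨x, hx, hx0⟩ := Pool.Agent.H952R2.Sextic.exists_common_zero (K := ℂ) (ι := Fin 4 ⊕ Fin 3)
    (κ := Fin 6) (by simp) f (by
      intro k
      have h1 : eval (0 : Fin 4 ⊕ Fin 3 → ℂ) (rename Sum.inl (A (pr k).1 (pr k).2)) =
          eval 0 (A (pr k).1 (pr k).2) := by
        rw [eval_rename]
        rfl
      simp only [f, map_sub, map_mul, eval_X, h1, h0]
      simp)
  have key : ∀ k, eval (fun i => x (Sum.inl i)) (A (pr k).1 (pr k).2) =
      x (Sum.inr (pr k).1) * x (Sum.inr (pr k).2) := by
    intro k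
    have h1 := hx0 k
    simp only [f, map_sub, map_mul, eval_X, eval_rename] at h1
    exact sub_eq_zero.1 h1
  have key2 : ∀ i j : Fin 3, eval (fun i => x (Sum.inl i)) (A i j) =
      x (Sum.inr i) * x (Sum.inr j) := by
    have hs : ∀ i j, A i j = A j i := fun i j => (hA.apply j i)
    have k0 := key 0
    have k1 := key 1
    have k2 := key 2
    have k3 := key 3
    have k4 := key 4
    have k5 := key 5
    simp only [pr, Matrix.cons_val_zero, Matrix.cons_val_one, Matrix.cons_val] at k0 k1 k2 k3 k4 k5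
    intro i j
    fin_cases i <;> fin_cases j
    · exact k0
    · exact k1
    · exact k2
    · change eval _ (A 1 0) = _
      rw [hs 1 0, k1, mul_comm]
      rfl
    · exact k3
    · exact k4
    · change eval _ (A 2 0) = _
      rw [hs 2 0, k2, mul_comm]
      rfl
    · change eval _ (A 2 1) = _
      rw [hs 2 1, k4, mul_comm]
      rfl
    · exact k5
  refine ⟨fun i => x (Sum.inl i), ?_, ?_⟩
  · intro hη
    apply hx
    have h2 : ∀ i : Fin 3, x (Sum.inr i) = 0 := by
      intro i
      have h3 := key2 i i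
      rw [hη, h0] at h3
      exact mul_self_eq_zero.1 h3.symm
    funext s
    rcases s with i | i
    · exact congrFun hη i
    · exact h2 i
  · intro i j k l
    rw [key2, key2, key2, key2]
    ring

end Pool.Agent.V1174.C3.Eta
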