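import Mathlib
import Pool.Agent.Y201.LI.Stm2
import Pool.Agent.Y246.C3.Cb
import Pool.Agent.TH314.PD.Core2

/-! # Project C3: job INV -/

set_option autoImplicit false

namespace Pool.Agent.V1174.C3.Inv

open MvPolynomial Pool.Agent.TH314.PD Pool.Agent.Y201.C3 Pool.Agent.Y201.LI

theorem t_inv : S_INV := by
  classical
  intro F hF hF0 M _ _ s hs G hG hFG hforms hR
  set x : Fin 6 → M := fun i => aeval s (G i) with hx
  have hcomp : ∀ H : MvPolynomial (Fin 6) ℂ, aeval x H = aeval s (aeval G H) := by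
    intro H
    have h2 : (aeval s).comp (aeval G) = (aeval x : MvPolynomial (Fin 6) ℂ →ₐ[ℂ] M) := by
      apply algHom_ext
      intro i
      rw [AlgHom.comp_apply, aeval_X, aeval_X]
    rw [← h2]
    rfl
  have hxF : aeval x F = 0 := by rw [hcomp, hFG, map_zero]
  have hxne : ∃ i, x i ≠ 0 := by
    by_contra hcon
    push Not at hcon
    have h1 := hforms 1 (X 0) (isHomogeneous_X _ _) (by rw [aeval_X]; exact hcon 0)
    exact X_ne_zero (R := ℂ) (0 : Fin 6)
      (eq_zero_of_dvd hF hF0 (isHomogeneous_X ℂ (0 : Fin 6)) (by norm_num) h1)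
  have hs0 : s 0 ≠ 0 := by
    intro h
    exact X_ne_zero (R := ℂ) (0 : Fin 5)
      (hs 1 (X 0) (isHomogeneous_X _ _) (by rw [aeval_X]; exact h))
  choose D P Q hP hQ hQ0 hPQ using fun i : Fin 5 => Pool.Agent.Y246.C3.exists_form x (s i / s 0)
    (hR i 0)
  let H : Fin 5 → MvPolynomial (Fin 6) ℂ := fun i => P i * ∏ j ∈ Finset.univ.erase i, Q j
  set Δ : M := ∏ j, aeval x (Q j) with hΔ
  have hΔ0 : Δ ≠ 0 := Finset.prod_ne_zero_iff.2 fun j _ => hQ0 j
  have hH : ∀ i, (H i).IsHomogeneous (∑ j, D j) := by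
    intro i
    have h1 : (∏ j ∈ Finset.univ.erase i, Q j).IsHomogeneous (∑ j ∈ Finset.univ.erase i, D j) :=
      IsHomogeneous.prod _ _ _ fun j _ => hQ j
    have h2 := (hP i).mul h1
    rwa [Finset.add_sum_erase _ _ (Finset.mem_univ i)] at h2
  have hHx : ∀ i, aeval x (H i) = Δ / s 0 * s i := by
    intro i
    simp only [H]
    rw [map_mul, map_prod, hPQ, mul_assoc, mul_comm (s i / s 0), ← mul_assoc,
      Finset.mul_prod_erase _ (fun j => aeval x (Q j)) (Finset.mem_univ i)]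
    rw [← hΔ]
    field_simp
  have hGH : ∀ i, aeval x (aeval H (G i)) = (Δ / s 0) ^ 3 * x i := by
    intro i
    have h2 : (aeval x).comp (aeval H) =
        (aeval (fun l => Δ / s 0 * s l) : MvPolynomial (Fin 5) ℂ →ₐ[ℂ] M) := by
      apply algHom_ext
      intro l
      rw [AlgHom.comp_apply, aeval_X, aeval_X, hHx]
    have h3 : aeval x (aeval H (G i)) = aeval (fun l => Δ / s 0 * s l) (G i) := by
      rw [← h2]
      rfl
    rw [h3, aeval_smul_form (hG i)]
  have hl : (Δ / s 0) ^ 3 ≠ 0 := pow_ne_zero _ (div_ne_zero hΔ0 hs0)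
  refine ⟨∑ j, D j, H, hH, ?_, ?_⟩
  · intro i j
    have hhom : ∀ i, (aeval H (G i)).IsHomogeneous ((∑ j, D j) * 3) := fun i => (hG i).aeval H hH
    refine hforms ((∑ j, D j) * 3 + 1) _ (((hhom i).mul (isHomogeneous_X _ _)).sub
      ((hhom j).mul (isHomogeneous_X _ _))) ?_
    change aeval x _ = 0
    rw [map_sub, map_mul, map_mul, aeval_X, aeval_X, hGH, hGH]
    ring
  · obtain ⟨i, hi⟩ := hxne
    refine ⟨i, ?_⟩
    rintro ⟨B, hB⟩
    have h1 := hGH i
    rw [hB, map_mul, hxF, zero_mul] at h1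
    exact mul_ne_zero hl hi h1.symm

end Pool.Agent.V1174.C3.Inv
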