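import Mathlib
import Pool.Agent.Y201.LI.Stm2

/-! # Project C3: job NET -/

set_option autoImplicit false

namespace Pool.Agent.V1174.C3.Net

open MvPolynomial Pool.Agent.Y201.C3 Pool.Agent.Y201.LI

theorem t_net : S_NET := by
  intro T hT hS v hv _
  by_contra hcon
  push Not at hcon
  let m : Fin 6 → Fin 3 → Fin 3 → ℂ := fun a i j => ∑ p, ∑ q, T a p q * v i p * v j q
  have hm : ∀ (x : Fin 6 → ℂ) (i j : Fin 3), Bf T x (v i) (v j) = ∑ a, x a * m a i j := by
    intro x i j
    unfold Bf
    refine Finset.sum_congr rfl fun a _ => ?_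
    simp only [m, Finset.mul_sum]
    refine Finset.sum_congr rfl fun p _ => Finset.sum_congr rfl fun q _ => ?_
    simp only [Algebra.algebraMap_self, RingHom.id_apply]
    ring
  have hsym : ∀ a i j, m a i j = m a j i := by
    intro a i j
    simp only [m]
    rw [Finset.sum_comm]
    refine Finset.sum_congr rfl fun p _ => Finset.sum_congr rfl fun q _ => ?_
    rw [(hT a q p).2]
    ring
  let Mx : Matrix (Fin 3) (Fin 3) (MvPolynomial (Fin 6) ℂ) :=
    Matrix.of fun i j => ∑ a, X a * C (m a i j)
  have hdet : Mx.det = 0 := by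
    apply MvPolynomial.funext
    intro x
    rw [map_zero, RingHom.map_det, ← hcon x]
    congr 1
    ext i j
    simp only [RingHom.mapMatrix_apply, Matrix.map_apply, Mx, Matrix.of_apply, map_sum, map_mul,
      eval_X, eval_C]
    rw [hm]
  obtain ⟨w, hw, hMw⟩ := Matrix.exists_mulVec_eq_zero_iff.2 hdet
  have h1 : ∀ i, ∑ j, Mx i j * w j = 0 := fun i => congrFun hMw i
  have h2 : ∀ a, ∑ i, ∑ j, w i * C (m a i j) * w j = 0 := by
    intro a
    have h3 : ∀ i, ∑ j, (C (m a i j) * w j + Mx i j * pderiv a (w j)) = 0 := by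
      intro i
      have h4 := congrArg (pderiv a) (h1 i)
      rw [map_zero, map_sum] at h4
      rw [← h4]
      refine Finset.sum_congr rfl fun j _ => ?_
      rw [(pderiv a).leibniz]
      have h5 : pderiv a (Mx i j) = C (m a i j) := by
        simp only [Mx, Matrix.of_apply, map_sum]
        rw [Finset.sum_eq_single a]
        · rw [(pderiv a).leibniz, pderiv_C, pderiv_X_self]
          simp
        · intro b _ hb
          rw [(pderiv a).leibniz, pderiv_C, pderiv_X_of_ne hb]
          simp
        · simp
      rw [h5, smul_eq_mul, smul_eq_mul]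
      ring
    have h6 : ∑ i, w i * ∑ j, (C (m a i j) * w j + Mx i j * pderiv a (w j)) = 0 := by
      refine Finset.sum_eq_zero fun i _ => ?_
      rw [h3, mul_zero]
    have h7 : ∑ i, w i * ∑ j, Mx i j * pderiv a (w j) = 0 := by
      simp only [Finset.mul_sum]
      rw [Finset.sum_comm]
      refine Finset.sum_eq_zero fun j _ => ?_
      have h8 : ∑ i, w i * (Mx i j * pderiv a (w j)) = (∑ i, Mx j i * w i) * pderiv a (w j) := by
        rw [Finset.sum_mul]
        refine Finset.sum_congr rfl fun i _ => ?_
        have h9 : Mx i j = Mx j i := by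
          simp only [Mx, Matrix.of_apply]
          refine Finset.sum_congr rfl fun b _ => ?_
          rw [hsym]
        rw [h9]
        ring
      rw [h8, h1, zero_mul]
    simp only [Finset.sum_add_distrib, mul_add] at h6
    rw [h7, add_zero] at h6
    rw [← h6]
    refine Finset.sum_congr rfl fun i _ => ?_
    rw [Finset.mul_sum]
    refine Finset.sum_congr rfl fun j _ => ?_
    ring
  obtain ⟨i0, hi0⟩ : ∃ i, w i ≠ 0 := by
    by_contra hc
    push Not at hc
    exact hw (funext hc)
  obtain ⟨ξ, hξ⟩ : ∃ ξ, eval ξ (w i0) ≠ 0 := by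
    by_contra hc
    push Not at hc
    exact hi0 (MvPolynomial.funext fun x => by rw [hc, map_zero])
  let c : Fin 3 → ℂ := fun i => eval ξ (w i)
  let z : Fin 6 → ℂ := ∑ i, c i • v i
  have hz : z = 0 := by
    apply hS
    intro a
    have h3 := congrArg (eval ξ) (h2 a)
    simp only [map_sum, map_mul, eval_C, map_zero] at h3
    rw [← h3]
    have h4 : ∀ p, z p = ∑ i, c i * v i p := by
      intro p
      simp only [z, Finset.sum_apply, Pi.smul_apply, smul_eq_mul]
    simp only [h4, m, Finset.mul_sum, Finset.sum_mul]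
    -- reorder
    calc ∑ p, ∑ q, ∑ j, ∑ i, T a p q * (c i * v i p) * (c j * v j q)
        = ∑ p, ∑ q, ∑ i, ∑ j, T a p q * (c i * v i p) * (c j * v j q) := by
          refine Finset.sum_congr rfl fun p _ => Finset.sum_congr rfl fun q _ => ?_
          rw [Finset.sum_comm]
      _ = ∑ p, ∑ i, ∑ j, ∑ q, T a p q * (c i * v i p) * (c j * v j q) := by
          refine Finset.sum_congr rfl fun p _ => ?_
          rw [Finset.sum_comm]
          refine Finset.sum_congr rfl fun i _ => ?_
          rw [Finset.sum_comm]
      _ = ∑ i, ∑ j, ∑ p, ∑ q, T a p q * (c i * v i p) * (c j * v j q) := by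
          rw [Finset.sum_comm]
          refine Finset.sum_congr rfl fun i _ => ?_
          rw [Finset.sum_comm]
      _ = ∑ i, ∑ j, ∑ p, ∑ q, c i * (T a p q * v i p * v j q) * c j := by
          refine Finset.sum_congr rfl fun i _ => Finset.sum_congr rfl fun j _ =>
            Finset.sum_congr rfl fun p _ => Finset.sum_congr rfl fun q _ => ?_
          ring
  rw [Fintype.linearIndependent_iff] at hv
  exact hξ (hv c hz i0)

end Pool.Agent.V1174.C3.Net
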