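import Mathlib
import Pool.Agent.H952R2.Sextic.CommonZero

/-! # Project C3: three conics with a linear syzygy have a common point -/

set_option autoImplicit false

namespace Pool.Agent.V1174.C3.Rig

open Matrix MvPolynomial

/-- quadratic form of a matrix -/
def qf (A : Matrix (Fin 3) (Fin 3) ℂ) (z : Fin 3 → ℂ) : ℂ := ∑ i, ∑ j, A i j * z i * z j

theorem qf_eq (A : Matrix (Fin 3) (Fin 3) ℂ) (z : Fin 3 → ℂ) : qf A z = z ⬝ᵥ A *ᵥ z := by
  simp only [qf, dotProduct, mulVec, Finset.mul_sum]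
  refine Finset.sum_congr rfl fun i _ => Finset.sum_congr rfl fun j _ => ?_
  ring

/-- polynomial of a quadratic form -/
noncomputable def qp (A : Matrix (Fin 3) (Fin 3) ℂ) : MvPolynomial (Fin 3) ℂ :=
  ∑ i, ∑ j, C (A i j) * X i * X j

theorem eval_qp (A : Matrix (Fin 3) (Fin 3) ℂ) (z : Fin 3 → ℂ) : eval z (qp A) = qf A z := by
  simp [qp, qf, map_sum]

/-- two forms in three variables -/
theorem two_forms (f g : MvPolynomial (Fin 3) ℂ) (hf : eval 0 f = 0) (hg : eval 0 g = 0) :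
    ∃ z : Fin 3 → ℂ, z ≠ 0 ∧ eval z f = 0 ∧ eval z g = 0 := by
  obtain ⟨x, hx, h⟩ := Pool.Agent.H952R2.Sextic.exists_common_zero (K := ℂ) (ι := Fin 3)
    (κ := Fin 2) (by simp) ![f, g] (by intro k; fin_cases k; exacts [hf, hg])
  exact ⟨x, hx, by simpa using h 0, by simpa using h 1⟩

theorem eval_zero_qp (A : Matrix (Fin 3) (Fin 3) ℂ) : eval 0 (qp A) = 0 := by
  rw [eval_qp]; simp [qf]

/-- common zero property -/
def CZ (A : Fin 3 → Matrix (Fin 3) (Fin 3) ℂ) : Prop := ∃ z : Fin 3 → ℂ, z ≠ 0 ∧ ∀ a, qf (A a) z = 0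

/-- all three coefficients nonzero -/
theorem diag_three (A : Fin 3 → Matrix (Fin 3) (Fin 3) ℂ) (d : Fin 3 → ℂ) (h0 : d 0 ≠ 0)
    (h1 : d 1 ≠ 0) (h2 : d 2 ≠ 0) (h : ∀ z : Fin 3 → ℂ, ∑ a, d a * z a * qf (A a) z = 0) :
    CZ A := by
  let N : Matrix (Fin 3) (Fin 3) ℂ :=
    !![0, -(d 2 * A 2 1 1), d 1 * A 1 2 2;
       d 2 * A 2 0 0, d 2 * (A 2 0 1 + A 2 1 0), -(d 0 * A 0 2 2);
       -(d 1 * A 1 0 0), d 0 * A 0 1 1, -(d 1 * (A 1 0 2 + A 1 2 0))]
  obtain ⟨μ, hμ⟩ := Module.End.exists_eigenvalue (K := ℂ) (Matrix.toLin' N)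
  obtain ⟨z, hz⟩ := hμ.exists_hasEigenvector
  have hz0 : z ≠ 0 := hz.2
  have hN : N *ᵥ z = μ • z := by
    have := hz.apply_eq_smul
    rwa [Matrix.toLin'_apply] at this
  have n0 := congrFun hN 0
  have n1 := congrFun hN 1
  have n2 := congrFun hN 2
  simp [N, mulVec, dotProduct, Fin.sum_univ_three] at n0 n1 n2
  have e100 := h ![1, 0, 0]
  have e010 := h ![0, 1, 0]
  have e001 := h ![0, 0, 1]
  have e110 := h ![1, 1, 0]
  have e1m0 := h ![1, -1, 0]
  have e101 := h ![1, 0, 1]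
  have e10m := h ![1, 0, -1]
  have e011 := h ![0, 1, 1]
  have e01m := h ![0, 1, -1]
  have e111 := h ![1, 1, 1]
  simp [qf, Fin.sum_univ_three] at e100 e010 e001 e110 e1m0 e101 e10m e011 e01m e111
  have c000 : A 0 0 0 = 0 := by
    rcases e100 with e | e
    · exact absurd e h0
    · exact e
  have c111 : A 1 1 1 = 0 := by
    rcases e010 with e | e
    · exact absurd e h1
    · exact e
  have c222 : A 2 2 2 = 0 := by
    rcases e001 with e | e
    · exact absurd e h2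
    · exact e
  rw [c000, c111] at e110 e1m0
  rw [c000, c222] at e101 e10m
  rw [c111, c222] at e011 e01m
  rw [c000, c111, c222] at e111
  -- coefficients
  have k1 : d 0 * A 0 1 1 + d 1 * (A 1 0 1 + A 1 1 0) = 0 := by linear_combination (e110 + e1m0) / 2
  have k2 : d 1 * A 1 0 0 + d 0 * (A 0 0 1 + A 0 1 0) = 0 := by linear_combination (e110 - e1m0) / 2
  have k3 : d 0 * A 0 2 2 + d 2 * (A 2 0 2 + A 2 2 0) = 0 := by linear_combination (e101 + e10m) / 2
  have k4 : d 2 * A 2 0 0 + d 0 * (A 0 0 2 + A 0 2 0) = 0 := by linear_combination (e101 - e10m) / 2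
  have k5 : d 1 * A 1 2 2 + d 2 * (A 2 1 2 + A 2 2 1) = 0 := by linear_combination (e011 + e01m) / 2
  have k6 : d 2 * A 2 1 1 + d 1 * (A 1 1 2 + A 1 2 1) = 0 := by linear_combination (e011 - e01m) / 2
  have k7 : d 0 * (A 0 1 2 + A 0 2 1) + d 1 * (A 1 0 2 + A 1 2 0) + d 2 * (A 2 0 1 + A 2 1 0) = 0 := by
    linear_combination e111 - k1 - k2 - k3 - k4 - k5 - k6
  refine ⟨z, hz0, ?_⟩
  intro a
  fin_cases a
  · change qf (A 0) z = 0
    refine (mul_eq_zero.1 ?_).resolve_left h0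
    simp only [qf, Fin.sum_univ_three]
    rw [c000]
    linear_combination z 1 * n2 - z 2 * n1 + z 0 * z 1 * k2 + z 0 * z 2 * k4 + z 1 * z 2 * k7
  · change qf (A 1) z = 0
    refine (mul_eq_zero.1 ?_).resolve_left h1
    simp only [qf, Fin.sum_univ_three]
    rw [c111]
    linear_combination z 2 * n0 - z 0 * n2 + z 0 * z 1 * k1 + z 1 * z 2 * k6
  · change qf (A 2) z = 0
    refine (mul_eq_zero.1 ?_).resolve_left h2
    simp only [qf, Fin.sum_univ_three]
    rw [c222]
    linear_combination z 0 * n1 - z 1 * n0 + z 0 * z 2 * k3 + z 1 * z 2 * k5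

/-- two coefficients nonzero -/
theorem diag_two (A : Fin 3 → Matrix (Fin 3) (Fin 3) ℂ) (d : Fin 3 → ℂ) (h0 : d 0 ≠ 0)
    (h1 : d 1 ≠ 0) (h2 : d 2 = 0) (h : ∀ z : Fin 3 → ℂ, ∑ a, d a * z a * qf (A a) z = 0) :
    CZ A := by
  have e100 := h ![1, 0, 0]
  have e010 := h ![0, 1, 0]
  have e110 := h ![1, 1, 0]
  have e1m0 := h ![1, -1, 0]
  have e101 := h ![1, 0, 1]
  have e10m := h ![1, 0, -1]
  have e011 := h ![0, 1, 1]
  have e01m := h ![0, 1, -1]
  have e111 := h ![1, 1, 1]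
  simp [qf, Fin.sum_univ_three, h2] at e100 e010 e110 e1m0 e101 e10m e011 e01m e111
  have c000 : A 0 0 0 = 0 := by
    rcases e100 with e | e
    · exact absurd e h0
    · exact e
  have c111 : A 1 1 1 = 0 := by
    rcases e010 with e | e
    · exact absurd e h1
    · exact e
  rw [c000, c111] at e110 e1m0
  have e101' := e101.resolve_left h0
  have e10m' := e10m.resolve_left h0
  have e011' := e011.resolve_left h1
  have e01m' := e01m.resolve_left h1
  rw [c000] at e101' e10m'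
  rw [c111] at e011' e01m'
  rw [c000, c111] at e111
  have k1 : d 0 * A 0 1 1 + d 1 * (A 1 0 1 + A 1 1 0) = 0 := by linear_combination (e110 + e1m0) / 2
  have k2 : d 1 * A 1 0 0 + d 0 * (A 0 0 1 + A 0 1 0) = 0 := by linear_combination (e110 - e1m0) / 2
  have k3 : A 0 2 2 = 0 := by linear_combination (e101' + e10m') / 2
  have k4 : A 0 0 2 + A 0 2 0 = 0 := by linear_combination (e101' - e10m') / 2
  have k5 : A 1 2 2 = 0 := by linear_combination (e011' + e01m') / 2
  have k6 : A 1 1 2 + A 1 2 1 = 0 := by linear_combination (e011' - e01m') / 2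
  have k7 : d 0 * (A 0 1 2 + A 0 2 1) + d 1 * (A 1 0 2 + A 1 2 0) = 0 := by
    linear_combination e111 - k1 - k2 - d 0 * k3 - d 0 * k4 - d 1 * k5 - d 1 * k6
  obtain ⟨z, hz0, hm, hq⟩ := two_forms
    (C (A 0 0 1 + A 0 1 0) * X 0 + C (A 0 1 1) * X 1 + C (A 0 1 2 + A 0 2 1) * X 2) (qp (A 2))
    (by simp) (eval_zero_qp _)
  rw [eval_qp] at hq
  simp at hm
  refine ⟨z, hz0, ?_⟩
  intro a
  fin_cases a
  · change qf (A 0) z = 0
    simp only [qf, Fin.sum_univ_three]
    rw [c000, k3]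
    linear_combination z 1 * hm + z 0 * z 2 * k4
  · change qf (A 1) z = 0
    refine (mul_eq_zero.1 ?_).resolve_left h1
    simp only [qf, Fin.sum_univ_three]
    rw [c111, k5]
    linear_combination (-(d 0) * z 0) * hm + z 0 * z 0 * k2 + z 0 * z 1 * k1 + z 0 * z 2 * k7 +
      d 1 * z 1 * z 2 * k6
  · exact hq

/-- one coefficient nonzero -/
theorem diag_one (A : Fin 3 → Matrix (Fin 3) (Fin 3) ℂ) (d : Fin 3 → ℂ) (h0 : d 0 ≠ 0)
    (h1 : d 1 = 0) (h2 : d 2 = 0) (h : ∀ z : Fin 3 → ℂ, ∑ a, d a * z a * qf (A a) z = 0) :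
    CZ A := by
  have e100 := h ![1, 0, 0]
  have e110 := h ![1, 1, 0]
  have e1m0 := h ![1, -1, 0]
  have e101 := h ![1, 0, 1]
  have e10m := h ![1, 0, -1]
  have e111 := h ![1, 1, 1]
  simp [qf, Fin.sum_univ_three, h1, h2] at e100 e110 e1m0 e101 e10m e111
  have c000 := e100.resolve_left h0
  have e110' := e110.resolve_left h0
  have e1m0' := e1m0.resolve_left h0
  have e101' := e101.resolve_left h0
  have e10m' := e10m.resolve_left h0
  have e111' := e111.resolve_left h0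
  obtain ⟨z, hz0, hm, hq⟩ := two_forms (qp (A 1)) (qp (A 2)) (eval_zero_qp _) (eval_zero_qp _)
  rw [eval_qp] at hm hq
  refine ⟨z, hz0, ?_⟩
  intro a
  fin_cases a
  · have k1 : A 0 1 1 = 0 := by linear_combination (e110' + e1m0') / 2 - c000
    have k2 : A 0 0 1 + A 0 1 0 = 0 := by linear_combination (e110' - e1m0') / 2
    have k3 : A 0 2 2 = 0 := by linear_combination (e101' + e10m') / 2 - c000
    have k4 : A 0 0 2 + A 0 2 0 = 0 := by linear_combination (e101' - e10m') / 2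
    have k5 : A 0 1 2 + A 0 2 1 = 0 := by
      linear_combination e111' - c000 - k1 - k2 - k3 - k4
    change qf (A 0) z = 0
    simp only [qf, Fin.sum_univ_three]
    rw [c000, k1, k3]
    linear_combination z 0 * z 1 * k2 + z 0 * z 2 * k4 + z 1 * z 2 * k5
  · exact hm
  · exact hq

/-- permuting the coordinates -/
theorem diag_perm (σ : Equiv.Perm (Fin 3)) (A : Fin 3 → Matrix (Fin 3) (Fin 3) ℂ)
    (h : CZ fun a => (A (σ a)).submatrix σ σ) : CZ A := by
  obtain ⟨z, hz, h⟩ := h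
  refine ⟨z ∘ σ.symm, ?_, ?_⟩
  · intro h0
    apply hz
    ext i
    have := congrFun h0 (σ i)
    simpa using this
  · intro a
    have := h (σ.symm a)
    rw [← this]
    simp only [qf, Equiv.apply_symm_apply, submatrix_apply]
    rw [← Equiv.sum_comp σ]
    refine Finset.sum_congr rfl fun i _ => ?_
    rw [← Equiv.sum_comp σ]
    refine Finset.sum_congr rfl fun j _ => ?_
    simp

theorem diag_all (A : Fin 3 → Matrix (Fin 3) (Fin 3) ℂ) (d : Fin 3 → ℂ) (hd : d ≠ 0)
    (h : ∀ z : Fin 3 → ℂ, ∑ a, d a * z a * qf (A a) z = 0) : CZ A := by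
  -- sort
  obtain ⟨σ, h0, h12⟩ : ∃ σ : Equiv.Perm (Fin 3), d (σ 0) ≠ 0 ∧ (d (σ 1) = 0 → d (σ 2) = 0) := by
    have hne : ∃ i, d i ≠ 0 := by
      by_contra hcon
      push Not at hcon
      exact hd (funext hcon)
    by_cases a0 : d 0 = 0
    · by_cases a1 : d 1 = 0
      · refine ⟨Equiv.swap 0 2, ?_, ?_⟩
        · obtain ⟨i, hi⟩ := hne
          fin_cases i
          · exact absurd a0 hi
          · exact absurd a1 hi
          · simpa using hi
        · intro _
          simpa using a0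
      · refine ⟨Equiv.swap 0 1 * Equiv.swap 1 2, ?_, ?_⟩
        · have : (Equiv.swap 0 1 * Equiv.swap 1 2 : Equiv.Perm (Fin 3)) 0 = 1 := by decide
          rw [this]; exact a1
        · have : (Equiv.swap 0 1 * Equiv.swap 1 2 : Equiv.Perm (Fin 3)) 2 = 0 := by decide
          rw [this]
          intro _; exact a0
    · by_cases a1 : d 1 = 0
      · refine ⟨Equiv.swap 1 2, ?_, ?_⟩
        · have : (Equiv.swap 1 2 : Equiv.Perm (Fin 3)) 0 = 0 := by decide
          rw [this]; exact a0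
        · intro _
          simpa using a1
      · exact ⟨1, by simpa using a0, fun h => absurd h (by simpa using a1)⟩
  apply diag_perm σ
  have h' : ∀ z : Fin 3 → ℂ, ∑ a, (d ∘ σ) a * z a * qf ((A (σ a)).submatrix σ σ) z = 0 := by
    intro z
    have := h (z ∘ σ.symm)
    rw [← Equiv.sum_comp σ] at this
    rw [← this]
    refine Finset.sum_congr rfl fun a _ => ?_
    have e : qf ((A (σ a)).submatrix σ σ) z = qf (A (σ a)) (z ∘ σ.symm) := by
      simp only [qf, submatrix_apply]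
      conv_rhs => rw [← Equiv.sum_comp σ]
      refine Finset.sum_congr rfl fun i _ => ?_
      conv_rhs => rw [← Equiv.sum_comp σ]
      refine Finset.sum_congr rfl fun j _ => ?_
      simp
    rw [e]
    simp
  by_cases h1 : d (σ 1) = 0
  · exact diag_one _ (d ∘ σ) h0 h1 (h12 h1) h'
  · by_cases h2 : d (σ 2) = 0
    · exact diag_two _ (d ∘ σ) h0 h1 h2 h'
    · exact diag_three _ (d ∘ σ) h0 h1 h2 h'

/-- three conics with a nontrivial linear syzygy have a common point -/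
theorem syz (A : Fin 3 → Matrix (Fin 3) (Fin 3) ℂ) (L : Matrix (Fin 3) (Fin 3) ℂ) (hL : L ≠ 0)
    (h : ∀ z : Fin 3 → ℂ, ∑ a, (L *ᵥ z) a * qf (A a) z = 0) : CZ A := by
  obtain ⟨l1, l2, D, hM⟩ := Matrix.Pivot.exists_list_transvec_mul_diagonal_mul_list_transvec L
  set T1 := (l1.map TransvectionStruct.toMatrix).prod with hT1
  set T2 := (l2.map TransvectionStruct.toMatrix).prod with hT2
  have hu1 : IsUnit T1.det := by
    rw [hT1, TransvectionStruct.det_toMatrix_prod]; exact isUnit_one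
  have hu2 : IsUnit T2.det := by
    rw [hT2, TransvectionStruct.det_toMatrix_prod]; exact isUnit_one
  have hD : D ≠ 0 := by
    rintro rfl
    apply hL
    rw [hM]
    simp
  have key : CZ fun b => ∑ a, T1 a b • ((T2⁻¹)ᵀ * A a * T2⁻¹) := by
    apply diag_all _ D hD
    intro y
    have := h (T2⁻¹ *ᵥ y)
    rw [← this]
    have e1 : L *ᵥ (T2⁻¹ *ᵥ y) = T1 *ᵥ (diagonal D *ᵥ y) := by
      rw [hM, mulVec_mulVec, Matrix.mul_assoc, Matrix.mul_nonsing_inv _ hu2, Matrix.mul_one,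
        ← mulVec_mulVec]
    rw [e1]
    have e2 : ∀ b, qf (∑ a, T1 a b • ((T2⁻¹)ᵀ * A a * T2⁻¹)) y =
        ∑ a, T1 a b * qf (A a) (T2⁻¹ *ᵥ y) := by
      intro b
      rw [qf_eq, Matrix.sum_mulVec, dotProduct_sum]
      refine Finset.sum_congr rfl fun a _ => ?_
      rw [Matrix.smul_mulVec, dotProduct_smul, smul_eq_mul, qf_eq]
      congr 1
      rw [Matrix.mul_assoc, ← mulVec_mulVec, dotProduct_mulVec, vecMul_transpose, ← mulVec_mulVec]
    simp only [e2]
    simp only [Finset.mul_sum]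
    rw [Finset.sum_comm]
    refine Finset.sum_congr rfl fun a _ => ?_
    rw [mulVec, dotProduct, Finset.sum_mul]
    refine Finset.sum_congr rfl fun b _ => ?_
    rw [mulVec_diagonal]
    ring
  obtain ⟨y, hy, hq⟩ := key
  refine ⟨T2⁻¹ *ᵥ y, ?_, ?_⟩
  · intro h0
    apply hy
    have := congrArg (fun v => T2 *ᵥ v) h0
    simpa [mulVec_mulVec, Matrix.mul_nonsing_inv _ hu2] using this
  · have e2 : ∀ b, qf (∑ a, T1 a b • ((T2⁻¹)ᵀ * A a * T2⁻¹)) y =
        ∑ a, T1 a b * qf (A a) (T2⁻¹ *ᵥ y) := by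
      intro b
      rw [qf_eq, Matrix.sum_mulVec, dotProduct_sum]
      refine Finset.sum_congr rfl fun a _ => ?_
      rw [Matrix.smul_mulVec, dotProduct_smul, smul_eq_mul, qf_eq]
      congr 1
      rw [Matrix.mul_assoc, ← mulVec_mulVec, dotProduct_mulVec, vecMul_transpose, ← mulVec_mulVec]
    have e3 : T1ᵀ *ᵥ (fun a => qf (A a) (T2⁻¹ *ᵥ y)) = 0 := by
      ext b
      have := hq b
      rw [e2] at this
      simpa [mulVec, dotProduct, transpose_apply] using this
    have hu1' : IsUnit (T1ᵀ).det := by rw [det_transpose]; exact hu1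
    have e4 : (fun a => qf (A a) (T2⁻¹ *ᵥ y)) = 0 := by
      have := congrArg (fun v => (T1ᵀ)⁻¹ *ᵥ v) e3
      simpa [mulVec_mulVec, Matrix.nonsing_inv_mul _ hu1'] using this
    intro a
    exact congrFun e4 a

end Pool.Agent.V1174.C3.Rig
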