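import Mathlib
import Pool.Agent.Y201.LI.Stm2
import Pool.Agent.H497R2.Der
import Pool.Agent.V1174.C3.RigA

/-! # Project C3, job RIG: planes in a smooth cubic fourfold are rigid -/

set_option autoImplicit false

namespace Pool.Agent.V1174.C3.Rig

open Matrix MvPolynomial Pool.Agent.Y201.C3 Pool.Agent.Y201.LI

/-- a nonvanishing maximal minor -/
theorem pivots (v : Fin 3 → Fin 6 → ℂ) (hv : LinearIndependent ℂ v) :
    ∃ p : Fin 3 → Fin 6, Function.Injective p ∧
      IsUnit (Matrix.of fun i j : Fin 3 => v i (p j)) := by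
  have hr : (Matrix.of v).rank = 3 := by
    have := LinearIndependent.rank_matrix (M := Matrix.of v) hv
    simpa using this
  rw [Matrix.rank_eq_finrank_span_cols] at hr
  obtain ⟨κ, a, ha, hsp, hli⟩ := exists_linearIndependent' ℂ (Matrix.of v).col
  have htop : Submodule.span ℂ (Set.range ((Matrix.of v).col ∘ a)) = ⊤ := by
    rw [hsp]
    apply Submodule.eq_top_of_finrank_eq
    rw [hr]; simp
  have : Finite κ := Finite.of_injective a ha
  have : Fintype κ := Fintype.ofFinite κ
  let b : Module.Basis κ ℂ (Fin 3 → ℂ) := Module.Basis.mk hli htop.ge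
  have hc : Fintype.card κ = 3 := by
    have := Module.finrank_eq_card_basis b
    simpa using this.symm
  let e : Fin 3 ≃ κ := (Fintype.equivFinOfCardEq hc).symm
  refine ⟨a ∘ e, ha.comp e.injective, ?_⟩
  rw [← Matrix.linearIndependent_cols_iff_isUnit]
  exact hli.comp e e.injective

/-- the trilinear form -/
noncomputable def BL (T : Fin 6 → Fin 6 → Fin 6 → ℂ) :
    (Fin 6 → ℂ) →ₗ[ℂ] (Fin 6 → ℂ) →ₗ[ℂ] (Fin 6 → ℂ) →ₗ[ℂ] ℂ :=
  LinearMap.mk₂ ℂ (fun x y =>
    { toFun := fun z => Bf T x y z
      map_add' := by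
        intro a b
        simp only [Bf, Pi.add_apply, mul_add, Finset.sum_add_distrib]
      map_smul' := by
        intro c a
        simp only [Bf, Pi.smul_apply, smul_eq_mul, RingHom.id_apply, Finset.mul_sum]
        refine Finset.sum_congr rfl fun i _ => Finset.sum_congr rfl fun j _ =>
          Finset.sum_congr rfl fun l _ => ?_
        ring })
    (by
      intro a b y
      apply LinearMap.ext
      intro z
      simp only [LinearMap.coe_mk, AddHom.coe_mk, LinearMap.add_apply, Bf, Pi.add_apply, mul_add,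
        add_mul, Finset.sum_add_distrib])
    (by
      intro c a y
      apply LinearMap.ext
      intro z
      simp only [LinearMap.coe_mk, AddHom.coe_mk, LinearMap.smul_apply, Bf, Pi.smul_apply,
        smul_eq_mul, Finset.mul_sum]
      refine Finset.sum_congr rfl fun i _ => Finset.sum_congr rfl fun j _ =>
        Finset.sum_congr rfl fun l _ => ?_
      ring)
    (by
      intro y a b
      apply LinearMap.ext
      intro z
      simp only [LinearMap.coe_mk, AddHom.coe_mk, LinearMap.add_apply, Bf, Pi.add_apply, mul_add,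
        add_mul, Finset.sum_add_distrib])
    (by
      intro c y a
      apply LinearMap.ext
      intro z
      simp only [LinearMap.coe_mk, AddHom.coe_mk, LinearMap.smul_apply, Bf, Pi.smul_apply,
        smul_eq_mul, Finset.mul_sum]
      refine Finset.sum_congr rfl fun i _ => Finset.sum_congr rfl fun j _ =>
        Finset.sum_congr rfl fun l _ => ?_
      ring)

theorem BL_apply (T : Fin 6 → Fin 6 → Fin 6 → ℂ) (x y z : Fin 6 → ℂ) :
    BL T x y z = Bf T x y z := rfl

theorem BL_swap1 {T : Fin 6 → Fin 6 → Fin 6 → ℂ} (hT : SymT T) (x y z : Fin 6 → ℂ) :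
    BL T x y z = BL T y x z := by
  simp only [BL_apply, Bf]
  rw [Finset.sum_comm]
  refine Finset.sum_congr rfl fun i _ => Finset.sum_congr rfl fun j _ =>
    Finset.sum_congr rfl fun l _ => ?_
  rw [(hT j i l).1]; ring

theorem BL_swap2 {T : Fin 6 → Fin 6 → Fin 6 → ℂ} (hT : SymT T) (x y z : Fin 6 → ℂ) :
    BL T x y z = BL T x z y := by
  simp only [BL_apply, Bf]
  refine Finset.sum_congr rfl fun i _ => ?_
  rw [Finset.sum_comm]
  refine Finset.sum_congr rfl fun j _ => Finset.sum_congr rfl fun l _ => ?_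
  rw [(hT i l j).2]; ring

theorem BL_left (T : Fin 6 → Fin 6 → Fin 6 → ℂ) (x y z : Fin 6 → ℂ) :
    BL T x y z = ∑ m, x m * BL T (E m) y z := by
  have h : x = ∑ m, x m • (E m : Fin 6 → ℂ) := by
    ext j
    simp [E, Finset.sum_apply, Pi.single_apply]
  conv_lhs => rw [h]
  simp [map_sum, LinearMap.sum_apply]

theorem BL_E (T : Fin 6 → Fin 6 → Fin 6 → ℂ) (m : Fin 6) (y z : Fin 6 → ℂ) :
    BL T (E m) y z = ∑ j, ∑ l, T m j l * y j * z l := by
  simp only [BL_apply, Bf, E]
  rw [Finset.sum_eq_single m]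
  · refine Finset.sum_congr rfl fun j _ => Finset.sum_congr rfl fun l _ => ?_
    simp
  · intro b _ hb
    refine Finset.sum_eq_zero fun j _ => Finset.sum_eq_zero fun l _ => ?_
    simp [Pi.single_apply, hb]
  · intro h; exact absurd (Finset.mem_univ m) h

theorem BL_sum (T : Fin 6 → Fin 6 → Fin 6 → ℂ) (x y z : Fin 3 → Fin 6 → ℂ) (c : Fin 3 → ℂ) :
    BL T (∑ i, c i • x i) (∑ i, c i • y i) (∑ i, c i • z i) =
      ∑ i, ∑ j, ∑ l, c i * c j * c l * BL T (x i) (y j) (z l) := by
  have s1 : ∀ u w, BL T (∑ i, c i • x i) u w = ∑ i, c i * BL T (x i) u w := by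
    intro u w; simp [map_sum, LinearMap.sum_apply]
  have s2 : ∀ u w, BL T u (∑ i, c i • y i) w = ∑ i, c i * BL T u (y i) w := by
    intro u w; simp [map_sum, LinearMap.sum_apply]
  have s3 : ∀ u w, BL T u w (∑ i, c i • z i) = ∑ i, c i * BL T u w (z i) := by
    intro u w; simp [map_sum]
  rw [s1]
  refine Finset.sum_congr rfl fun i _ => ?_
  rw [s2, Finset.mul_sum]
  refine Finset.sum_congr rfl fun j _ => ?_
  rw [s3, Finset.mul_sum, Finset.mul_sum]
  refine Finset.sum_congr rfl fun l _ => ?_
  ring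

/-- the derivation applied to the relation -/
theorem der_rel (k : Subfield ℂ) (D : Derivation k ℂ ℂ) (T : Fin 6 → Fin 6 → Fin 6 → ℂ)
    (hT : ∀ i j l, T i j l ∈ k) (x y z : Fin 6 → ℂ) (h : BL T x y z = 0) :
    BL T (fun i => D (x i)) y z + BL T x (fun i => D (y i)) z + BL T x y (fun i => D (z i)) = 0 := by
  have h1 := congrArg D h
  rw [map_zero, BL_apply, Bf] at h1
  rw [← h1]
  simp only [BL_apply, Bf, map_sum, Derivation.leibniz, ← Finset.sum_add_distrib]
  refine Finset.sum_congr rfl fun i _ => Finset.sum_congr rfl fun j _ =>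
    Finset.sum_congr rfl fun l _ => ?_
  have h2 : D (algebraMap ℂ ℂ (T i j l)) = 0 := by
    have : (algebraMap ℂ ℂ (T i j l)) = algebraMap k ℂ ⟨T i j l, hT i j l⟩ := rfl
    rw [this, Derivation.map_algebraMap]
  rw [h2]
  simp only [smul_eq_mul]
  ring

/-- splitting off the pivots -/
theorem split (p : Fin 3 → Fin 6) (hp : Function.Injective p) :
    ∃ n : Fin 3 → Fin 6, (∀ j, (∃ i, j = p i) ∨ ∃ a, j = n a) ∧
      ∀ f : Fin 6 → ℂ, ∑ m, f m = ∑ i, f (p i) + ∑ a, f (n a) := by
  classical
  have hc : Fintype.card ((Set.range p)ᶜ : Set (Fin 6)) = 3 := by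
    rw [Fintype.card_compl_set, Set.card_range_of_injective hp]; simp
  let e1 : Fin 3 ≃ ((Set.range p)ᶜ : Set (Fin 6)) := (Fintype.equivFinOfCardEq hc).symm
  let e : Fin 3 ⊕ Fin 3 ≃ Fin 6 :=
    (Equiv.sumCongr (Equiv.ofInjective p hp) e1).trans (Equiv.Set.sumCompl (Set.range p))
  refine ⟨fun a => (e1 a : Fin 6), ?_, ?_⟩
  · intro j
    rcases h : e.symm j with i | a
    · left
      refine ⟨i, ?_⟩
      rw [Equiv.symm_apply_eq] at h
      rw [h]; simp [e]
    · right
      refine ⟨a, ?_⟩
      rw [Equiv.symm_apply_eq] at h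
      rw [h]; simp [e]
  · intro f
    rw [← Equiv.sum_comp e, Fintype.sum_sum_type]
    congr 1

/-- an echelon basis has coefficients in the field of definition -/
theorem main (k : Subfield ℂ) (hk : IsAlgClosed k) (T : Fin 6 → Fin 6 → Fin 6 → ℂ)
    (hS : SymT T) (hsm : SmoothT T) (hT : ∀ i j l, T i j l ∈ k) (v : Fin 3 → Fin 6 → ℂ)
    (hv : LinearIndependent ℂ v) (h0 : ∀ i j l, BL T (v i) (v j) (v l) = 0) (p : Fin 3 → Fin 6)
    (hp : Function.Injective p) (hvp : ∀ i j, v i (p j) = if i = j then 1 else 0) :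
    ∀ i j, v i j ∈ k := by
  classical
  by_contra hcon
  push Not at hcon
  obtain ⟨i0, j0, hc⟩ := hcon
  obtain ⟨n, hn, hsum⟩ := split p hp
  have htr : Transcendental k (v i0 j0) := by
    intro halg
    apply hc
    have hint : IsIntegral k (v i0 j0) := halg.isIntegral
    have h : (minpoly k (v i0 j0)).degree = 1 :=
      IsAlgClosed.degree_eq_one_of_irreducible k (minpoly.irreducible hint)
    obtain ⟨y, hy⟩ := (minpoly.degree_eq_one_iff.1 h)
    rw [← hy]
    exact y.2
  obtain ⟨D, hD⟩ := H497R2.exists_derivation k ℂ htr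
  set φ : Fin 3 → Fin 6 → ℂ := fun i j => D (v i j) with hφ
  have hφp : ∀ i j, φ i (p j) = 0 := by
    intro i j
    simp only [hφ, hvp]
    split_ifs
    · exact D.map_one_eq_zero
    · exact map_zero _
  -- the relation
  have hrel : ∀ z : Fin 3 → ℂ, BL T (∑ i, z i • φ i) (∑ i, z i • v i) (∑ i, z i • v i) = 0 := by
    intro z
    have h1 : BL T (∑ i, z i • φ i) (∑ i, z i • v i) (∑ i, z i • v i) +
        BL T (∑ i, z i • v i) (∑ i, z i • φ i) (∑ i, z i • v i) +
        BL T (∑ i, z i • v i) (∑ i, z i • v i) (∑ i, z i • φ i) = 0 := by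
      rw [BL_sum, BL_sum, BL_sum]
      simp only [← Finset.sum_add_distrib]
      refine Finset.sum_eq_zero fun i _ => Finset.sum_eq_zero fun j _ =>
        Finset.sum_eq_zero fun l _ => ?_
      have := der_rel k D T hT _ _ _ (h0 i j l)
      rw [← mul_add, ← mul_add]
      rw [this, mul_zero]
    rw [BL_swap1 hS (∑ i, z i • v i) (∑ i, z i • φ i)] at h1
    rw [BL_swap2 hS (∑ i, z i • v i) (∑ i, z i • v i), BL_swap1 hS (∑ i, z i • v i)] at h1
    linear_combination h1 / 3
  -- the net of conics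
  let A : Fin 3 → Matrix (Fin 3) (Fin 3) ℂ := fun a => Matrix.of fun i j => BL T (E (n a)) (v i) (v j)
  have hA : ∀ a z, qf (A a) z = BL T (E (n a)) (∑ i, z i • v i) (∑ i, z i • v i) := by
    intro a z
    simp only [qf, A, Matrix.of_apply]
    rw [LinearMap.map_sum₂]
    simp only [map_smul, LinearMap.smul_apply, smul_eq_mul, map_sum, Finset.mul_sum]
    refine Finset.sum_congr rfl fun i _ => Finset.sum_congr rfl fun j _ => ?_
    ring
  let L : Matrix (Fin 3) (Fin 3) ℂ := Matrix.of fun a i => φ i (n a)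
  have hL : L ≠ 0 := by
    intro hL0
    rcases hn j0 with ⟨i, hi⟩ | ⟨a, ha⟩
    · have := hφp i0 i
      rw [← hi] at this
      simp only [hφ] at this
      rw [hD] at this
      exact one_ne_zero this
    · have := congrFun (congrFun hL0 a) i0
      simp only [L, Matrix.of_apply, hφ, Matrix.zero_apply] at this
      rw [← ha, hD] at this
      exact one_ne_zero this
  have hsyz : ∀ z : Fin 3 → ℂ, ∑ a, (L *ᵥ z) a * qf (A a) z = 0 := by
    intro z
    have h1 := hrel z
    rw [BL_left, hsum] at h1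
    have h2 : ∑ i, (∑ l, z l • φ l) (p i) * BL T (E (p i)) (∑ i, z i • v i) (∑ i, z i • v i) = 0 := by
      refine Finset.sum_eq_zero fun i _ => ?_
      rw [Finset.sum_apply]
      simp [hφp]
    rw [h2, zero_add] at h1
    rw [← h1]
    refine Finset.sum_congr rfl fun a _ => ?_
    rw [hA]
    congr 1
    simp only [Matrix.mulVec, dotProduct, L, Matrix.of_apply, Finset.sum_apply, Pi.smul_apply,
      smul_eq_mul]
    refine Finset.sum_congr rfl fun i _ => ?_
    ring
  obtain ⟨z, hz, hq⟩ := syz A L hL hsyz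
  apply hz
  set w := ∑ i, z i • v i with hw
  have hqn : ∀ a, BL T (E (n a)) w w = 0 := by
    intro a
    rw [← hA]; exact hq a
  have hvw : ∀ i, BL T (v i) w w = 0 := by
    intro i
    rw [hw]
    simp only [map_sum, map_smul, LinearMap.sum_apply, LinearMap.smul_apply, h0]
    simp
  have hqp : ∀ i, BL T (E (p i)) w w = 0 := by
    intro i
    have := hvw i
    rw [BL_left, hsum] at this
    have h2 : ∑ a, v i (n a) * BL T (E (n a)) w w = 0 :=
      Finset.sum_eq_zero fun a _ => by rw [hqn, mul_zero]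
    rw [h2, add_zero, Finset.sum_eq_single i] at this
    · simpa [hvp] using this
    · intro b _ hb
      rw [hvp, if_neg (Ne.symm hb), zero_mul]
    · intro h; exact absurd (Finset.mem_univ i) h
  have hw0 : w = 0 := by
    apply hsm
    intro m
    rw [← BL_E]
    rcases hn m with ⟨i, hi⟩ | ⟨a, ha⟩
    · rw [hi]; exact hqp i
    · rw [ha]; exact hqn a
  rw [Fintype.linearIndependent_iff] at hv
  ext i
  exact hv z hw0 i

/-- job RIG -/
theorem t_rig : S_RIG := by
  intro k hk T hS hsm hT v hv h0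
  obtain ⟨p, hp, hu⟩ := pivots v hv
  set N : Matrix (Fin 3) (Fin 3) ℂ := Matrix.of fun i j : Fin 3 => v i (p j) with hN
  have hud : IsUnit N.det := (Matrix.isUnit_iff_isUnit_det N).1 hu
  let v' : Fin 3 → Fin 6 → ℂ := fun i => ∑ l, N⁻¹ i l • v l
  have hv' : ∀ i, v i = ∑ l, N i l • v' l := by
    intro i
    simp only [v', Finset.smul_sum, smul_smul]
    rw [Finset.sum_comm]
    simp only [← Finset.sum_smul]
    have h1 : ∀ l, ∑ x, N i x * N⁻¹ x l = if i = l then 1 else 0 := by
      intro l
      have := congrFun (congrFun (Matrix.mul_nonsing_inv N hud) i) l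
      rwa [Matrix.mul_apply, Matrix.one_apply] at this
    simp [h1]
  have hsp : Submodule.span ℂ (Set.range v') = Submodule.span ℂ (Set.range v) := by
    apply le_antisymm
    · rw [Submodule.span_le]
      rintro _ ⟨i, rfl⟩
      exact Submodule.sum_mem _ fun l _ => Submodule.smul_mem _ _ (Submodule.subset_span ⟨l, rfl⟩)
    · rw [Submodule.span_le]
      rintro _ ⟨i, rfl⟩
      rw [hv' i]
      exact Submodule.sum_mem _ fun l _ => Submodule.smul_mem _ _ (Submodule.subset_span ⟨l, rfl⟩)
  have hli : LinearIndependent ℂ v' := by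
    rw [linearIndependent_iff_card_eq_finrank_span] at hv ⊢
    rw [hv]
    unfold Set.finrank
    rw [hsp]
  have h0' : ∀ i j l, BL T (v' i) (v' j) (v' l) = 0 := by
    intro i j l
    have h1 : ∀ i j l, BL T (v i) (v j) (v l) = 0 := h0
    simp only [v', map_sum, LinearMap.sum_apply, map_smul, LinearMap.smul_apply, h1]
    simp
  have hvp : ∀ i j, v' i (p j) = if i = j then 1 else 0 := by
    intro i j
    have := congrFun (congrFun (Matrix.nonsing_inv_mul N hud) i) j
    rw [Matrix.mul_apply, Matrix.one_apply] at this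
    rw [← this]
    simp only [v', Finset.sum_apply, Pi.smul_apply, smul_eq_mul]
    rfl
  exact ⟨v', main k hk T hS hsm hT v' hli h0' p hp hvp, hli, hsp⟩

end Pool.Agent.V1174.C3.Rig
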